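import Pool.Agent.Helper23_Refl.StmtC2

/-!
REFL, part C2, module FINN: final nodes of the search trees.
-/

namespace Pool.Agent.Refl.H59

open Matrix

/-! ### reading kernel functions -/

theorem fc_eq {α : Type} (n : ℕ) (f : ℕ → α) : K.fc n f = f n := by
  cases n <;> rfl

theorem brec_ne {b : Bool} {x : ℕ} (h : Bool.rec (motive := fun _ => ℕ) 0 x b ≠ 0) :
    b = true ∧ x ≠ 0 := by
  cases b
  · exact absurd rfl h
  · exact ⟨rfl, h⟩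

theorem brec_or {b x : Bool} (h : Bool.rec (motive := fun _ => Bool) x true b = true) :
    b = true ∨ x = true := by
  cases b
  · exact Or.inr h
  · exact Or.inl rfl

theorem ands_true {a b : Bool} (h : K.ands a b = true) : a = true ∧ b = true := by
  cases a
  · exact absurd (show false = true from h) (by decide)
  · exact ⟨rfl, h⟩

theorem okb_ne {b : Bool} {s : ℕ} (h : K.okb b s ≠ 0) : b = true := by
  cases b
  · exact absurd rfl h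
  · rfl

theorem beq_true {a b : ℕ} (h : Nat.beq a b = true) : a = b := Nat.eq_of_beq_eq_true h

theorem nrec_true {n : ℕ} {f : ℕ → Bool}
    (h : Nat.rec (motive := fun _ => Bool) false (fun z _ => f z) n = true) :
    ∃ z, n = z + 1 ∧ f z = true := by
  cases n with
  | zero => exact absurd h (by simp)
  | succ z => exact ⟨z, rfl, h⟩

theorem rd4_ne {w s : ℕ} {f : ℕ → ℕ → ℕ → ℕ → ℕ → ℕ} (h : K.rd4 w s f ≠ 0) :
    ∃ a b c d s', a < 2 ^ w ∧ b < 2 ^ w ∧ c < 2 ^ w ∧ d < 2 ^ w ∧ f a b c d s' ≠ 0 := by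
  unfold K.rd4 at h
  simp only [fc_eq] at h
  have hW : 0 < 2 ^ w := by positivity
  refine ⟨_, _, _, _, _, ?_, ?_, ?_, ?_, h⟩
  · exact Nat.mod_lt _ hW
  · exact Nat.mod_lt _ hW
  · exact Nat.mod_lt _ hW
  · apply Nat.div_lt_of_lt_mul
    have h1 : s % (2 ^ w) ^ 4 < (2 ^ w) ^ 4 := Nat.mod_lt _ (by positivity)
    calc s % (2 ^ w) ^ 4 < (2 ^ w) ^ 4 := h1
      _ = (2 ^ w) ^ 3 * 2 ^ w := by ring

/-! ### constants -/

theorem Q_big {c : K.Ctx} {D0 : ℕ} (hc : CtxB c D0) : 2 ^ 141 * D0 ≤ c.Q := by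
  rw [hc.Q, mul_pow]
  have h1 : D0 ≤ D0 ^ 8 := Nat.le_self_pow (by norm_num) D0
  calc 2 ^ 141 * D0 ≤ 2 ^ 141 * D0 ^ 8 := Nat.mul_le_mul_left _ h1
    _ = 2 ^ 80 * (2 ^ 61 * D0 ^ 8) := by ring
    _ ≤ 2 ^ 80 * (210 ^ 8 * D0 ^ 8) :=
        Nat.mul_le_mul_left _ (Nat.mul_le_mul_right _ (by norm_num))

theorem Q_big' {c : K.Ctx} {D0 : ℕ} (hc : CtxB c D0) : 2 ^ 141 ≤ c.Q := by
  refine le_trans ?_ (Q_big hc)
  have := hc.D
  omega

theorem sum4 (c : K.Ctx) (v : Z4) (t : ℕ) :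
    (∑ j : Fin 4, (v j + t * c.Q) * (c.B : ℤ) ^ (j : ℕ)) =
      (v 0 + t * c.Q) + (v 1 + t * c.Q) * c.B + (v 2 + t * c.Q) * c.B ^ 2 +
        (v 3 + t * c.Q) * c.B ^ 3 := by
  simp [Fin.sum_univ_four]

theorem sum4' (c : K.Ctx) (v : Z4) :
    (∑ j : Fin 4, v j * (c.B : ℤ) ^ (j : ℕ)) =
      v 0 + v 1 * c.B + v 2 * c.B ^ 2 + v 3 * c.B ^ 3 := by
  simp [Fin.sum_univ_four]

/-! ### reading a vector -/

theorem rdv_ne (hp4 : Pack4Stmt) {c : K.Ctx} {D0 wU wP n0 n1 n2 n3 s : ℕ}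
    {f : ℕ → ℕ → ℕ → ℕ → ℕ → ℕ → ℕ} {N : M4} (hc : CtxB c D0) (hN : PkN c n0 n1 n2 n3 N)
    (hU : wU < 32) (hP : wP < 32) (h : K.rdv c wU wP n0 n1 n2 n3 s f ≠ 0) :
    ∃ (y a0 a1 a2 a3 s' : ℕ) (v z : Z4), f y a0 a1 a2 a3 s' ≠ 0 ∧ Pk c y v ∧
      (∀ j, |v j| ≤ 2 ^ 31) ∧ N.mulVec z = v ∧ (a0 < c.Q ∧ a1 < c.Q ∧ a2 < c.Q ∧ a3 < c.Q) ∧
      ((a0 : ZMod c.Q) = (v 0 : ℤ) ∧ (a1 : ZMod c.Q) = (v 1 : ℤ) ∧
        (a2 : ZMod c.Q) = (v 2 : ℤ) ∧ (a3 : ZMod c.Q) = (v 3 : ℤ)) := by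
  unfold K.rdv at h
  obtain ⟨z0, z1, z2, z3, s1, hz0, hz1, hz2, hz3, h⟩ := rd4_ne h
  obtain ⟨x0, x1, x2, x3, s2, hx0, hx1, hx2, hx3, h⟩ := rd4_ne h
  simp only [fc_eq] at h
  obtain ⟨hb, h⟩ := brec_ne h
  have hb' := beq_true hb
  clear hb
  have hQ := Q_big' hc
  have hwU : 2 ^ wU ≤ 2 ^ 31 := Nat.pow_le_pow_right (by norm_num) (by omega)
  have hwP : 2 ^ wP ≤ 2 ^ 31 := Nat.pow_le_pow_right (by norm_num) (by omega)
  obtain ⟨t, ht⟩ : ∃ t : ℕ, t = Nat.div (Nat.pow 2 wU) 2 := ⟨_, rfl⟩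
  obtain ⟨tp, htp⟩ : ∃ tp : ℕ, tp = Nat.div (Nat.pow 2 wP) 2 := ⟨_, rfl⟩
  rw [← ht, ← htp] at hb'
  rw [← htp] at h
  have ht1 : t ≤ 2 ^ 30 := by
    have h1 : t = 2 ^ wU / 2 := ht
    omega
  have htp1 : tp ≤ 2 ^ 30 := by
    have h1 : tp = 2 ^ wP / 2 := htp
    omega
  have hQpos : 0 < c.Q := lt_of_lt_of_le (by norm_num) hQ
  have hB2 := hc.B2
  have hB3 := hc.B3
  have hOm := hc.Om
  set y : ℕ := Nat.sub (Nat.add (Nat.add (Nat.add x0 (Nat.mul x1 c.B)) (Nat.add (Nat.mul x2 c.B2)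
    (Nat.mul x3 c.B3))) c.Om) (Nat.mul tp (Nat.add (Nat.add 1 c.B) (Nat.add c.B2 c.B3))) with hy
  have hy' : y = (x0 + x1 * c.B + (x2 * c.B2 + x3 * c.B3)) + c.Om -
      tp * ((1 + c.B) + (c.B2 + c.B3)) := hy
  have hsub : tp * ((1 + c.B) + (c.B2 + c.B3)) ≤
      (x0 + x1 * c.B + (x2 * c.B2 + x3 * c.B3)) + c.Om := by
    rw [hOm]
    have h1 : tp * ((1 + c.B) + (c.B2 + c.B3)) ≤ c.Q * (1 + c.B + (c.B2 + c.B3)) :=
      Nat.mul_le_mul_right _ (by omega)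
    omega
  have hyZ : (y : ℤ) = (x0 + x1 * c.B + (x2 * c.B2 + x3 * c.B3)) + c.Om -
      tp * ((1 + c.B) + (c.B2 + c.B3)) := by
    rw [hy', Nat.cast_sub hsub]
    push_cast
    ring
  have hOmZ : (c.Om : ℤ) = c.Q * (1 + c.B + c.B ^ 2 + c.B ^ 3) := by
    rw [hOm, hB3, hB2]; push_cast; ring
  have hB2Z : (c.B2 : ℤ) = c.B ^ 2 := by rw [hB2]; push_cast; ring
  have hB3Z : (c.B3 : ℤ) = c.B ^ 3 := by rw [hB3, hB2]; push_cast; ring
  obtain ⟨v, hv⟩ : ∃ v : Z4, v = ![(x0 : ℤ) - tp, x1 - tp, x2 - tp, x3 - tp] := ⟨_, rfl⟩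
  obtain ⟨z, hz⟩ : ∃ z : Z4, z = ![(z0 : ℤ) - t, z1 - t, z2 - t, z3 - t] := ⟨_, rfl⟩
  have hv0 : v 0 = x0 - tp := by rw [hv]; rfl
  have hv1 : v 1 = x1 - tp := by rw [hv]; rfl
  have hv2 : v 2 = x2 - tp := by rw [hv]; rfl
  have hv3 : v 3 = x3 - tp := by rw [hv]; rfl
  have hzj : ∀ j, |z j| ≤ 2 ^ 31 := by
    intro j
    rw [hz, abs_le]
    fin_cases j <;> simp <;> omega
  have hvj : ∀ j, |v j| ≤ 2 ^ 31 := by
    intro j
    rw [hv, abs_le]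
    fin_cases j <;> simp <;> omega
  have hyP : Pg c y 1 v := by
    unfold Pg
    rw [sum4, hyZ, hOmZ, hB2Z, hB3Z, hv0, hv1, hv2, hv3]
    push_cast
    ring
  have hpk : Pk c y v := by
    refine ⟨hyP, ?_⟩
    intro j
    refine (hvj j).trans ?_
    have : (2 : ℤ) ^ 31 ≤ c.Q := by exact_mod_cast (le_trans (by norm_num) hQ)
    exact this
  -- the coefficients
  obtain ⟨hA, hB⟩ := hp4 c D0 n0 n1 n2 n3 N hc hN
  have hA1 := hA t z0 z1 z2 z3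
  have hcomb : ∑ j : Fin 4, v j * (c.B : ℤ) ^ (j : ℕ) =
      ∑ j : Fin 4, (N.mulVec z) j * (c.B : ℤ) ^ (j : ℕ) := by
    rw [hz, ← hA1]
    have h1 : (K.cX c.Om t z0 z1 z2 z3 n0 n1 n2 n3 : ℤ) =
        y + K.cY c.Om t z0 z1 z2 z3 n0 n1 n2 n3 := by
      have : K.cX c.Om t z0 z1 z2 z3 n0 n1 n2 n3 =
        y + K.cY c.Om t z0 z1 z2 z3 n0 n1 n2 n3 := hb'
      exact_mod_cast this
    rw [h1, sum4', hyZ, hOmZ, hB2Z, hB3Z, hv0, hv1, hv2, hv3]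
    ring
  have hNbd : ∀ i j, |N i j| ≤ c.Q := by
    intro i j
    exact (hN j).2 i
  have hNz : N.mulVec z = v := by
    symm
    apply hB v (N.mulVec z) _ _ hcomb
    · intro j
      refine (hvj j).trans ?_
      have h1 : (2 : ℤ) ^ 31 ≤ c.Q := by exact_mod_cast (le_trans (by norm_num) hQ)
      have h2 : (0 : ℤ) ≤ c.Q := by positivity
      linarith
    · intro j
      have h2 : (0 : ℤ) ≤ c.Q := by positivity
      have h3 : ∀ k, |N j k * z k| ≤ c.Q * 2 ^ 31 := by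
        intro k
        rw [abs_mul]
        exact mul_le_mul (hNbd j k) (hzj k) (abs_nonneg _) h2
      have h4 : (N.mulVec z) j = N j 0 * z 0 + N j 1 * z 1 + N j 2 * z 2 + N j 3 * z 3 := by
        simp [Matrix.mulVec, dotProduct, Fin.sum_univ_four]
      rw [h4]
      have := h3 0
      have := h3 1
      have := h3 2
      have := h3 3
      calc |N j 0 * z 0 + N j 1 * z 1 + N j 2 * z 2 + N j 3 * z 3|
          ≤ |N j 0 * z 0| + |N j 1 * z 1| + |N j 2 * z 2| + |N j 3 * z 3| := by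
            refine (abs_add_le _ _).trans ?_
            gcongr
            refine (abs_add_le _ _).trans ?_
            gcongr
            exact abs_add_le _ _
        _ ≤ 2 ^ 100 * c.Q := by linarith
  have hres : ∀ x : ℕ, x < 2 ^ wP →
      Nat.mod (Nat.sub (Nat.add x c.Q) tp) c.Q < c.Q ∧
      ((Nat.mod (Nat.sub (Nat.add x c.Q) tp) c.Q : ℕ) : ZMod c.Q) = (((x : ℤ) - tp : ℤ) : ZMod c.Q) := by
    intro x _
    refine ⟨Nat.mod_lt _ hQpos, ?_⟩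
    have h1 : Nat.mod (Nat.sub (Nat.add x c.Q) tp) c.Q = (x + c.Q - tp) % c.Q := rfl
    rw [h1, ZMod.natCast_mod, Nat.cast_sub (by omega)]
    push_cast
    simp
  refine ⟨y, _, _, _, _, s2, v, z, h, hpk, hvj, hNz, ⟨(hres x0 hx0).1, (hres x1 hx1).1,
    (hres x2 hx2).1, (hres x3 hx3).1⟩, ?_⟩
  rw [hv0, hv1, hv2, hv3]
  exact ⟨(hres x0 hx0).2, (hres x1 hx1).2, (hres x2 hx2).2, (hres x3 hx3).2⟩

/-! ### determinant -/

theorem mnr_spec {Q x y z w : ℕ} (hQ : 0 < Q) (hy : y < Q) (hz : z < Q) :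
    K.mnr Q x y z w < Q ∧ ((K.mnr Q x y z w : ℕ) : ZMod Q) = x * w - y * z := by
  have h1 : K.mnr Q x y z w = (x * w + Q * Q - y * z) % Q := rfl
  have h2 : y * z ≤ Q * Q := Nat.mul_le_mul hy.le hz.le
  rw [h1]
  refine ⟨Nat.mod_lt _ hQ, ?_⟩
  rw [ZMod.natCast_mod, Nat.cast_sub (by omega)]
  push_cast
  simp

theorem dtq_spec {Q m01 m02 m03 m12 m13 m23 k01 k02 k03 k12 k13 k23 : ℕ} (hQ : 0 < Q)
    (h02 : m02 < Q) (h13 : m13 < Q) (h13' : k13 < Q) (h02' : k02 < Q) :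
    ((K.dtq Q m01 m02 m03 m12 m13 m23 k01 k02 k03 k12 k13 k23 : ℕ) : ZMod Q) =
      m01 * k23 + m03 * k12 + m12 * k03 + m23 * k01 - m02 * k13 - m13 * k02 := by
  have h1 : K.dtq Q m01 m02 m03 m12 m13 m23 k01 k02 k03 k12 k13 k23 =
    (2 * (Q * Q) + ((m01 * k23 + m03 * k12) + (m12 * k03 + m23 * k01)) -
      (m02 * k13 + m13 * k02)) % Q := rfl
  have h2 : m02 * k13 ≤ Q * Q := Nat.mul_le_mul h02.le h13'.le
  have h3 : m13 * k02 ≤ Q * Q := Nat.mul_le_mul h13.le h02'.le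
  have _ := hQ
  rw [h1, ZMod.natCast_mod, Nat.cast_sub (by omega)]
  push_cast
  simp
  ring

theorem det_of4 (a b c d : Z4) : (Matrix.of ![a, b, c, d]).det =
    (a 0 * b 1 - a 1 * b 0) * (c 2 * d 3 - c 3 * d 2) +
    (a 0 * b 3 - a 3 * b 0) * (c 1 * d 2 - c 2 * d 1) +
    (a 1 * b 2 - a 2 * b 1) * (c 0 * d 3 - c 3 * d 0) +
    (a 2 * b 3 - a 3 * b 2) * (c 0 * d 1 - c 1 * d 0) -
    (a 0 * b 2 - a 2 * b 0) * (c 1 * d 3 - c 3 * d 1) -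
    (a 1 * b 3 - a 3 * b 1) * (c 0 * d 2 - c 2 * d 0) := by
  simp [Matrix.det_succ_row_zero, Fin.sum_univ_succ, Fin.succAbove, Matrix.submatrix]
  ring

theorem detQ_spec {Q : ℕ} (hQ : 0 < Q) {a0 a1 a2 a3 b0 b1 b2 b3 d0 d1 d2 d3 e0 e1 e2 e3 : ℕ}
    {a b d e : Z4} (ha : a0 < Q ∧ a1 < Q ∧ a2 < Q ∧ a3 < Q) (hb : b0 < Q ∧ b1 < Q ∧ b2 < Q ∧ b3 < Q)
    (hd : d0 < Q ∧ d1 < Q ∧ d2 < Q ∧ d3 < Q) (he : e0 < Q ∧ e1 < Q ∧ e2 < Q ∧ e3 < Q)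
    (ha' : (a0 : ZMod Q) = (a 0 : ℤ) ∧ (a1 : ZMod Q) = (a 1 : ℤ) ∧ (a2 : ZMod Q) = (a 2 : ℤ) ∧
      (a3 : ZMod Q) = (a 3 : ℤ))
    (hb' : (b0 : ZMod Q) = (b 0 : ℤ) ∧ (b1 : ZMod Q) = (b 1 : ℤ) ∧ (b2 : ZMod Q) = (b 2 : ℤ) ∧
      (b3 : ZMod Q) = (b 3 : ℤ))
    (hd' : (d0 : ZMod Q) = (d 0 : ℤ) ∧ (d1 : ZMod Q) = (d 1 : ℤ) ∧ (d2 : ZMod Q) = (d 2 : ℤ) ∧
      (d3 : ZMod Q) = (d 3 : ℤ))
    (he' : (e0 : ZMod Q) = (e 0 : ℤ) ∧ (e1 : ZMod Q) = (e 1 : ℤ) ∧ (e2 : ZMod Q) = (e 2 : ℤ) ∧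
      (e3 : ZMod Q) = (e 3 : ℤ)) :
    ((K.detQ Q a0 a1 a2 a3 b0 b1 b2 b3 d0 d1 d2 d3 e0 e1 e2 e3 : ℕ) : ZMod Q) =
      ((Matrix.of ![a, b, d, e]).det : ℤ) := by
  obtain ⟨h1, h2, h3, h4⟩ := ha
  obtain ⟨i1, i2, i3, i4⟩ := hb
  obtain ⟨j1, j2, j3, j4⟩ := hd
  obtain ⟨k1, k2, k3, k4⟩ := he
  obtain ⟨h1', h2', h3', h4'⟩ := ha'
  obtain ⟨i1', i2', i3', i4'⟩ := hb'
  obtain ⟨j1', j2', j3', j4'⟩ := hd'
  obtain ⟨k1', k2', k3', k4'⟩ := he'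
  unfold K.detQ
  rw [dtq_spec hQ (mnr_spec hQ h3 i1).1 (mnr_spec hQ h4 i2).1 (mnr_spec hQ j4 k2).1
    (mnr_spec hQ j3 k1).1]
  rw [(mnr_spec hQ h2 i1).2, (mnr_spec hQ h3 i1).2, (mnr_spec hQ h4 i1).2, (mnr_spec hQ h3 i2).2,
    (mnr_spec hQ h4 i2).2, (mnr_spec hQ h4 i3).2, (mnr_spec hQ j2 k1).2, (mnr_spec hQ j3 k1).2,
    (mnr_spec hQ j4 k1).2, (mnr_spec hQ j3 k2).2, (mnr_spec hQ j4 k2).2, (mnr_spec hQ j4 k3).2,
    det_of4, h1', h2', h3', h4', i1', i2', i3', i4', j1', j2', j3', j4', k1', k2', k3', k4']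
  push_cast
  ring

/-- bound for a determinant -/
theorem det_bd {a b c d : Z4} (ha : ∀ j, |a j| ≤ 2 ^ 31) (hb : ∀ j, |b j| ≤ 2 ^ 31)
    (hc : ∀ j, |c j| ≤ 2 ^ 31) (hd : ∀ j, |d j| ≤ 2 ^ 31) :
    |(Matrix.of ![a, b, c, d]).det| ≤ 2 ^ 130 := by
  have h2 : ∀ x y z w : ℤ, |x| ≤ 2 ^ 31 → |y| ≤ 2 ^ 31 → |z| ≤ 2 ^ 31 → |w| ≤ 2 ^ 31 →
      |x * w - y * z| ≤ 2 ^ 63 := by
    intro x y z w hx hy hz hw
    have h3 : |x * w| ≤ 2 ^ 31 * 2 ^ 31 := by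
      rw [abs_mul]; exact mul_le_mul hx hw (abs_nonneg _) (by norm_num)
    have h4 : |y * z| ≤ 2 ^ 31 * 2 ^ 31 := by
      rw [abs_mul]; exact mul_le_mul hy hz (abs_nonneg _) (by norm_num)
    refine (abs_sub _ _).trans ?_
    linarith
  have h5 : ∀ x y : ℤ, |x| ≤ 2 ^ 63 → |y| ≤ 2 ^ 63 → |x * y| ≤ 2 ^ 126 := by
    intro x y hx hy
    rw [abs_mul]
    calc |x| * |y| ≤ 2 ^ 63 * 2 ^ 63 := mul_le_mul hx hy (abs_nonneg _) (by norm_num)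
      _ = 2 ^ 126 := by norm_num
  rw [det_of4]
  have m1 := abs_le.1 (h5 _ _ (h2 _ _ _ _ (ha 0) (ha 1) (hb 0) (hb 1)) (h2 _ _ _ _ (hc 2) (hc 3) (hd 2) (hd 3)))
  have m2 := abs_le.1 (h5 _ _ (h2 _ _ _ _ (ha 0) (ha 3) (hb 0) (hb 3)) (h2 _ _ _ _ (hc 1) (hc 2) (hd 1) (hd 2)))
  have m3 := abs_le.1 (h5 _ _ (h2 _ _ _ _ (ha 1) (ha 2) (hb 1) (hb 2)) (h2 _ _ _ _ (hc 0) (hc 3) (hd 0) (hd 3)))
  have m4 := abs_le.1 (h5 _ _ (h2 _ _ _ _ (ha 2) (ha 3) (hb 2) (hb 3)) (h2 _ _ _ _ (hc 0) (hc 1) (hd 0) (hd 1)))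
  have m5 := abs_le.1 (h5 _ _ (h2 _ _ _ _ (ha 0) (ha 2) (hb 0) (hb 2)) (h2 _ _ _ _ (hc 1) (hc 3) (hd 1) (hd 3)))
  have m6 := abs_le.1 (h5 _ _ (h2 _ _ _ _ (ha 1) (ha 3) (hb 1) (hb 3)) (h2 _ _ _ _ (hc 0) (hc 2) (hd 0) (hd 2)))
  rw [abs_le]
  constructor <;> linarith [m1.1, m1.2, m2.1, m2.2, m3.1, m3.2, m4.1, m4.2, m5.1, m5.2, m6.1, m6.2]

/-! ### Gram matrix -/

theorem dot_bd {P : M4} {v w : Z4} (hP : ∀ i j, |P i j| ≤ 2 ^ 70) (hv : ∀ j, |v j| ≤ 2 ^ 31)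
    (hw : ∀ j, |w j| ≤ 2 ^ 31) : |w ⬝ᵥ P.mulVec v| ≤ 2 ^ 136 := by
  have h1 : ∀ i, |(P.mulVec v) i| ≤ 2 ^ 103 := by
    intro i
    have h2 : (P.mulVec v) i = P i 0 * v 0 + P i 1 * v 1 + P i 2 * v 2 + P i 3 * v 3 := by
      simp [Matrix.mulVec, dotProduct, Fin.sum_univ_four]
    have h3 : ∀ k, |P i k * v k| ≤ 2 ^ 101 := by
      intro k
      rw [abs_mul]
      calc |P i k| * |v k| ≤ 2 ^ 70 * 2 ^ 31 := mul_le_mul (hP i k) (hv k) (abs_nonneg _) (by norm_num)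
        _ = 2 ^ 101 := by norm_num
    have m0 := abs_le.1 (h3 0)
    have m1 := abs_le.1 (h3 1)
    have m2 := abs_le.1 (h3 2)
    have m3 := abs_le.1 (h3 3)
    rw [h2, abs_le]
    constructor <;> linarith [m0.1, m0.2, m1.1, m1.2, m2.1, m2.2, m3.1, m3.2]
  have h4 : w ⬝ᵥ P.mulVec v = w 0 * (P.mulVec v) 0 + w 1 * (P.mulVec v) 1 + w 2 * (P.mulVec v) 2 +
      w 3 * (P.mulVec v) 3 := by
    simp [dotProduct, Fin.sum_univ_four]
  have h3 : ∀ k, |w k * (P.mulVec v) k| ≤ 2 ^ 134 := by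
    intro k
    rw [abs_mul]
    calc |w k| * |(P.mulVec v) k| ≤ 2 ^ 31 * 2 ^ 103 :=
          mul_le_mul (hw k) (h1 k) (abs_nonneg _) (by norm_num)
      _ = 2 ^ 134 := by norm_num
  have m0 := abs_le.1 (h3 0)
  have m1 := abs_le.1 (h3 1)
  have m2 := abs_le.1 (h3 2)
  have m3 := abs_le.1 (h3 3)
  rw [h4, abs_le]
  constructor <;> linarith [m0.1, m0.2, m1.1, m1.2, m2.1, m2.2, m3.1, m3.2]

/-- one entry of the Gram matrix -/
theorem ge_spec (hp2 : Pack2Stmt) {c : K.Ctx} {D0 : ℕ} {P : M4} (hc : CtxP c D0 P)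
    {y1 y2 g w row i z : ℕ} {v1 v2 : Z4} (h1 : Pk c y1 v1) (h2 : Pk c y2 v2)
    (hv1 : ∀ j, |v1 j| ≤ 2 ^ 31) (hv2 : ∀ j, |v2 j| ≤ 2 ^ 31) (hg : g < 2 ^ 63) (hw : w < 32)
    (hz : K.zr c y1 c.Q = z)
    (h : K.ge c g (Nat.mod (Nat.mul g (Nat.div (Nat.pow 2 w) 2)) c.Q) z y2 (K.gen row w i) = true) :
    v2 ⬝ᵥ P.mulVec v1 = -(g * K.sg (Nat.div (Nat.pow 2 w) 2) (K.gen row w i)) := by
  have hQ := Q_big' hc.toCtxB
  have hQpos : 0 < c.Q := lt_of_lt_of_le (by norm_num) hQ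
  have hQZ : (2 : ℤ) ^ 141 ≤ c.Q := by exact_mod_cast hQ
  have hpd : ∀ {y : ℕ} {v : Z4}, Pk c y v → (∀ j, |v j| ≤ 2 ^ 31) → Pd c y v := by
    intro y v hy hv
    refine ⟨1, hy.1, ?_⟩
    intro j
    have := abs_le.1 (hv j)
    push_cast
    constructor <;> linarith [this.1, this.2]
  have hdt := hp2 c D0 y1 y2 c.Q c.Q P v1 v2 hc (hpd h1 hv1) (hpd h2 hv2) hQpos hQpos dvd_rfl dvd_rfl
  rw [hz] at hdt
  have hb := beq_true h
  obtain ⟨a, ha⟩ : ∃ a, a = K.gen row w i := ⟨_, rfl⟩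
  obtain ⟨t, ht⟩ : ∃ t : ℕ, t = Nat.div (Nat.pow 2 w) 2 := ⟨_, rfl⟩
  rw [← ha, ← ht] at hb ⊢
  have ha1 : a < 2 ^ 31 := by
    have h5 : a = (row >>> (w * i)) % 2 ^ w := ha
    have h6 : a < 2 ^ w := by rw [h5]; exact Nat.mod_lt _ (by positivity)
    have h7 : 2 ^ w ≤ 2 ^ 31 := Nat.pow_le_pow_right (by norm_num) (by omega)
    omega
  have ht1 : t < 2 ^ 31 := by
    have h5 : t = 2 ^ w / 2 := ht
    have h7 : 2 ^ w ≤ 2 ^ 31 := Nat.pow_le_pow_right (by norm_num) (by omega)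
    omega
  have hsg : K.sg t a = (a : ℤ) - t := Int.subNatNat_eq_coe
  rw [hsg]
  have hb' : (K.dt c z y2 c.Q + g * a) % c.Q = (g * t) % c.Q := hb
  have hb'' : ((K.dt c z y2 c.Q : ℤ) + g * a) % c.Q = (g * t) % c.Q := by exact_mod_cast hb'
  rw [hdt] at hb''
  have hdiv : (c.Q : ℤ) ∣ (v2 ⬝ᵥ P.mulVec v1) + g * (a - t) := by
    have h8 : ((v2 ⬝ᵥ P.mulVec v1) + g * a) % c.Q = (g * t) % c.Q := by
      rw [← hb'', Int.emod_add_emod]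
    have h10 : (c.Q : ℤ) ∣ (g * t) - ((v2 ⬝ᵥ P.mulVec v1) + g * a) := Int.modEq_iff_dvd.1 h8
    have h11 := (dvd_neg (α := ℤ)).2 h10
    have h12 : -((g * t : ℤ) - ((v2 ⬝ᵥ P.mulVec v1) + g * a)) =
        (v2 ⬝ᵥ P.mulVec v1) + g * (a - t) := by ring
    rwa [h12] at h11
  have hbd : |(v2 ⬝ᵥ P.mulVec v1) + g * (a - t)| < c.Q := by
    have m1 := abs_le.1 (dot_bd hc.bd hv1 hv2)
    have m2 : |(g : ℤ) * (a - t)| ≤ 2 ^ 94 := by
      rw [abs_mul]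
      have h13 : |(g : ℤ)| ≤ 2 ^ 63 := by rw [Nat.abs_cast]; exact_mod_cast hg.le
      have h14 : |(a : ℤ) - t| ≤ 2 ^ 31 := by rw [abs_le]; constructor <;> omega
      calc |(g : ℤ)| * |(a : ℤ) - t| ≤ 2 ^ 63 * 2 ^ 31 := mul_le_mul h13 h14 (abs_nonneg _) (by norm_num)
        _ = 2 ^ 94 := by norm_num
    have m3 := abs_le.1 m2
    rw [abs_lt]
    constructor <;> linarith [m1.1, m1.2, m3.1, m3.2]
  have h0 := Int.eq_zero_of_abs_lt_dvd hdiv hbd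
  linear_combination h0

/-- the matrix of a row of numbers -/
theorem mrow_eq (w row : ℕ) : mrow w row =
    !![K.sg (Nat.div (Nat.pow 2 w) 2) (K.gen row w 0), K.sg (Nat.div (Nat.pow 2 w) 2) (K.gen row w 1),
        K.sg (Nat.div (Nat.pow 2 w) 2) (K.gen row w 2), K.sg (Nat.div (Nat.pow 2 w) 2) (K.gen row w 3);
       K.sg (Nat.div (Nat.pow 2 w) 2) (K.gen row w 1), K.sg (Nat.div (Nat.pow 2 w) 2) (K.gen row w 4),
        K.sg (Nat.div (Nat.pow 2 w) 2) (K.gen row w 5), K.sg (Nat.div (Nat.pow 2 w) 2) (K.gen row w 6);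
       K.sg (Nat.div (Nat.pow 2 w) 2) (K.gen row w 2), K.sg (Nat.div (Nat.pow 2 w) 2) (K.gen row w 5),
        K.sg (Nat.div (Nat.pow 2 w) 2) (K.gen row w 7), K.sg (Nat.div (Nat.pow 2 w) 2) (K.gen row w 8);
       K.sg (Nat.div (Nat.pow 2 w) 2) (K.gen row w 3), K.sg (Nat.div (Nat.pow 2 w) 2) (K.gen row w 6),
        K.sg (Nat.div (Nat.pow 2 w) 2) (K.gen row w 8), K.sg (Nat.div (Nat.pow 2 w) 2) (K.gen row w 9)] := by
  unfold mrow K.i10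
  rw [fc_eq]
  rfl

theorem dot_symm {P : M4} (hP : P.transpose = P) (v w : Z4) :
    w ⬝ᵥ P.mulVec v = v ⬝ᵥ P.mulVec w := by
  rw [Matrix.dotProduct_mulVec, ← Matrix.mulVec_transpose, hP, dotProduct_comm]

theorem gram_spec (hp2 : Pack2Stmt) {c : K.Ctx} {D0 : ℕ} {P : M4} (hc : CtxP c D0 P)
    {y0 y1 y2 y3 g w row : ℕ} {v0 v1 v2 v3 : Z4} (h0 : Pk c y0 v0) (h1 : Pk c y1 v1)
    (h2 : Pk c y2 v2) (h3 : Pk c y3 v3) (hv0 : ∀ j, |v0 j| ≤ 2 ^ 31)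
    (hv1 : ∀ j, |v1 j| ≤ 2 ^ 31) (hv2 : ∀ j, |v2 j| ≤ 2 ^ 31) (hv3 : ∀ j, |v3 j| ≤ 2 ^ 31)
    (hg : g < 2 ^ 63) (hw : w < 32) (h : K.gram c g w row y0 y1 y2 y3 = true) :
    ∀ i j : Fin 4, (![v0, v1, v2, v3] i) ⬝ᵥ P.mulVec (![v0, v1, v2, v3] j) =
      -(g * mrow w row i j) := by
  unfold K.gram at h
  have h' := h
  clear h
  change Nat.rec (motive := fun _ => Bool) false (fun z0 _ => Nat.rec (motive := fun _ => Bool) false
    (fun z1 _ => Nat.rec (motive := fun _ => Bool) false (fun z2 _ =>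
    Nat.rec (motive := fun _ => Bool) false (fun z3 _ => _) (K.zr c y3 c.Q)) (K.zr c y2 c.Q))
    (K.zr c y1 c.Q)) (K.zr c y0 c.Q) = true at h'
  obtain ⟨z0, hz0, h'⟩ := nrec_true h'
  obtain ⟨z1, hz1, h'⟩ := nrec_true h'
  obtain ⟨z2, hz2, h'⟩ := nrec_true h'
  obtain ⟨z3, hz3, h'⟩ := nrec_true h'
  obtain ⟨ha, hb⟩ := ands_true h'
  obtain ⟨ha1, ha2⟩ := ands_true ha
  obtain ⟨e00, e01⟩ := ands_true ha1
  obtain ⟨e02, e03⟩ := ands_true ha2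
  obtain ⟨hb1, hb2⟩ := ands_true hb
  obtain ⟨e11, e12⟩ := ands_true hb1
  obtain ⟨hb3, hb4⟩ := ands_true hb2
  obtain ⟨e13, e22⟩ := ands_true hb3
  obtain ⟨e23, e33⟩ := ands_true hb4
  have f00 := ge_spec hp2 hc h0 h0 hv0 hv0 hg hw hz0 e00
  have f01 := ge_spec hp2 hc h0 h1 hv0 hv1 hg hw hz0 e01
  have f02 := ge_spec hp2 hc h0 h2 hv0 hv2 hg hw hz0 e02
  have f03 := ge_spec hp2 hc h0 h3 hv0 hv3 hg hw hz0 e03
  have f11 := ge_spec hp2 hc h1 h1 hv1 hv1 hg hw hz1 e11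
  have f12 := ge_spec hp2 hc h1 h2 hv1 hv2 hg hw hz1 e12
  have f13 := ge_spec hp2 hc h1 h3 hv1 hv3 hg hw hz1 e13
  have f22 := ge_spec hp2 hc h2 h2 hv2 hv2 hg hw hz2 e22
  have f23 := ge_spec hp2 hc h2 h3 hv2 hv3 hg hw hz2 e23
  have f33 := ge_spec hp2 hc h3 h3 hv3 hv3 hg hw hz3 e33
  have s01 := dot_symm hc.symm v0 v1
  have s02 := dot_symm hc.symm v0 v2
  have s03 := dot_symm hc.symm v0 v3
  have s12 := dot_symm hc.symm v1 v2
  have s13 := dot_symm hc.symm v1 v3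
  have s23 := dot_symm hc.symm v2 v3
  rw [mrow_eq]
  intro i j
  fin_cases i <;> fin_cases j
  · exact f00
  · exact s01.symm.trans f01
  · exact s02.symm.trans f02
  · exact s03.symm.trans f03
  · exact f01
  · exact f11
  · exact s12.symm.trans f12
  · exact s13.symm.trans f13
  · exact f02
  · exact f12
  · exact f22
  · exact s23.symm.trans f23
  · exact f03
  · exact f13
  · exact f23
  · exact f33

/-! ### the final node -/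

/-- the conclusion of the reading part of a final node -/
theorem fin_core (hp2 : Pack2Stmt) {c : K.Ctx} {D0 : ℕ} {P F G : M4} {a b : ℤ} {nd : ℕ}
    {e : Fin 6 → Z4} {D cl : ℕ} (hE : Env c D0 P F G a b nd e)
    {N W : M4} (hFW : F * W = N) (hND : N.det.natAbs = D) (hD : 0 < D)
    (hNbd : ∀ i j, |N i j| * (D : ℤ) ^ 2 ≤ 4096 * (D0 : ℤ) ^ 2)
    (hcl : ∀ p : ℕ, p.Prime → p ∣ cl → ¬ (p : ℤ) ∣ W.det) (hcl24 : D ∣ cl ^ 24)
    {y0 y1 y2 y3 : ℕ} {v0 v1 v2 v3 z0 z1 z2 z3 : Z4} (h0 : Pk c y0 v0) (h1 : Pk c y1 v1)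
    (h2 : Pk c y2 v2) (h3 : Pk c y3 v3) (hv0 : ∀ j, |v0 j| ≤ 2 ^ 31)
    (hv1 : ∀ j, |v1 j| ≤ 2 ^ 31) (hv2 : ∀ j, |v2 j| ≤ 2 ^ 31) (hv3 : ∀ j, |v3 j| ≤ 2 ^ 31)
    (hz0 : N.mulVec z0 = v0) (hz1 : N.mulVec z1 = v1) (hz2 : N.mulVec z2 = v2)
    (hz3 : N.mulVec z3 = v3) {dt : ℕ}
    (hdt : (dt : ZMod c.Q) = ((Matrix.of ![v0, v1, v2, v3]).det : ℤ))
    (hdt' : dt = D ∨ dt + D = c.Q) :
    ∃ U : M4ˣ, (∀ i j, (F * (U : M4)) i j = ![v0, v1, v2, v3] j i) ∧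
      ∀ (g w row : ℕ), g < 2 ^ 63 → w < 32 → K.gram c g w row y0 y1 y2 y3 = true →
        FinD c F G y0 y1 y2 y3 row w U := by
  have hQ := Q_big' hE.ctx.toCtxB
  have hQ0 := Q_big hE.ctx.toCtxB
  have hQpos : 0 < c.Q := lt_of_lt_of_le (by norm_num) hQ
  have hD0 := hE.ctx.D
  have hNdet : N.det ≠ 0 := by
    intro h
    rw [h] at hND
    simp at hND
    omega
  -- `D ≤ 64 D0`
  have hD64 : D ≤ 64 * D0 := by
    obtain ⟨i, j, hij⟩ : ∃ i j, N i j ≠ 0 := by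
      by_contra hcon
      push Not at hcon
      apply hNdet
      have : N = 0 := by ext i j; exact hcon i j
      rw [this]
      simp
    have h4 := hNbd i j
    have h5 : 1 ≤ |N i j| := Int.one_le_abs hij
    have h6 : (D : ℤ) ^ 2 ≤ (64 * (D0 : ℤ)) ^ 2 := by nlinarith [sq_nonneg (D : ℤ)]
    have h7 : (D : ℤ) ≤ 64 * D0 := by
      by_contra hlt
      push Not at hlt
      nlinarith
    exact_mod_cast h7
  -- the exact determinant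
  have hdet : (Matrix.of ![v0, v1, v2, v3]).det = D ∨ (Matrix.of ![v0, v1, v2, v3]).det = -D := by
    have hbd := abs_le.1 (det_bd hv0 hv1 hv2 hv3)
    have hQZ : (2 : ℤ) ^ 141 * D0 ≤ c.Q := by exact_mod_cast hQ0
    have hD64Z : (D : ℤ) ≤ 64 * D0 := by exact_mod_cast hD64
    have hD0Z : (1 : ℤ) ≤ D0 := by exact_mod_cast hD0
    have hDZ : (0 : ℤ) < D := by exact_mod_cast hD
    rcases hdt' with h | h
    · left
      have h8 : ((((Matrix.of ![v0, v1, v2, v3]).det - D : ℤ)) : ZMod c.Q) = 0 := by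
        rw [Int.cast_sub, ← hdt, h, Int.cast_natCast, sub_self]
      have h9 := (ZMod.intCast_zmod_eq_zero_iff_dvd _ _).1 h8
      have h10 := Int.eq_zero_of_abs_lt_dvd h9 (by
        rw [abs_lt]; constructor <;> linarith [hbd.1, hbd.2])
      linarith
    · right
      have h8 : ((((Matrix.of ![v0, v1, v2, v3]).det + D : ℤ)) : ZMod c.Q) = 0 := by
        rw [Int.cast_add, ← hdt, Int.cast_natCast, ← Nat.cast_add, h, ZMod.natCast_self]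
      have h9 := (ZMod.intCast_zmod_eq_zero_iff_dvd _ _).1 h8
      have h10 := Int.eq_zero_of_abs_lt_dvd h9 (by
        rw [abs_lt]; constructor <;> linarith [hbd.1, hbd.2])
      linarith
  -- `W` is unimodular
  have hWdet : IsUnit W.det := by
    rw [Int.isUnit_iff_natAbs_eq]
    by_contra hne
    obtain ⟨p, hp, hpd⟩ := Nat.exists_prime_and_dvd hne
    have h8 : (p : ℤ) ∣ W.det := Int.natCast_dvd.2 hpd
    have h9 : p ∣ D := by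
      rw [← hND, ← hFW, Matrix.det_mul, Int.natAbs_mul]
      exact hpd.mul_left _
    have h10 : p ∣ cl := hp.dvd_of_dvd_pow (h9.trans hcl24)
    exact hcl p hp h10 h8
  -- the matrix `Z`
  obtain ⟨Z, hZ⟩ : ∃ Z : M4, Z = Matrix.of (fun i j => ![z0, z1, z2, z3] j i) := ⟨_, rfl⟩
  have hNZ : ∀ i j, (N * Z) i j = ![v0, v1, v2, v3] j i := by
    intro i j
    have h8 : (N * Z) i j = (N.mulVec (![z0, z1, z2, z3] j)) i := by
      rw [hZ]; rfl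
    rw [h8]
    fin_cases j
    · exact congrFun hz0 i
    · exact congrFun hz1 i
    · exact congrFun hz2 i
    · exact congrFun hz3 i
  have hNZdet : (N * Z).det = (Matrix.of ![v0, v1, v2, v3]).det := by
    rw [← Matrix.det_transpose]
    congr 1
    ext i j
    rw [Matrix.transpose_apply, hNZ]
    rfl
  have hZdet : IsUnit Z.det := by
    rw [Int.isUnit_iff_natAbs_eq]
    have h8 : (N * Z).det.natAbs = D := by
      rw [hNZdet]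
      rcases hdet with h | h <;> rw [h] <;> simp
    rw [Matrix.det_mul, Int.natAbs_mul, hND] at h8
    exact Nat.eq_of_mul_eq_mul_left hD (by rw [h8, mul_one])
  have hU : IsUnit (W * Z) := by
    rw [Matrix.isUnit_iff_isUnit_det, Matrix.det_mul]
    exact hWdet.mul hZdet
  obtain ⟨U, hUe⟩ := hU
  have hFU : F * (U : M4) = N * Z := by rw [hUe, ← Matrix.mul_assoc, hFW]
  have hFU' : ∀ i j, (F * (U : M4)) i j = ![v0, v1, v2, v3] j i := by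
    intro i j; rw [hFU, hNZ]
  refine ⟨U, hFU', ?_⟩
  intro g w row hg hw hgram
  refine ⟨?_, ?_, hw, ?_⟩
  · intro i
    have h8 : (fun j => (F * (U : M4)) j i) = ![v0, v1, v2, v3] i := by
      funext j; rw [hFU']
    rw [h8]
    fin_cases i
    · exact h0
    · exact h1
    · exact h2
    · exact h3
  · intro i j
    rw [hFU']
    fin_cases j
    · exact hv0 i
    · exact hv1 i
    · exact hv2 i
    · exact hv3 i
  · have hgs := gram_spec hp2 hE.ctx h0 h1 h2 h3 hv0 hv1 hv2 hv3 hg hw hgram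
    have h8 : (F * (U : M4)).transpose * P * (F * (U : M4)) = -((g : ℤ) • mrow w row) := by
      ext i j
      rw [Matrix.mul_assoc, Matrix.neg_apply, Matrix.smul_apply, smul_eq_mul, ← hgs i j]
      have h9 : ((F * (U : M4)).transpose * (P * (F * (U : M4)))) i j =
          (fun k => (F * (U : M4)) k i) ⬝ᵥ P.mulVec (fun k => (F * (U : M4)) k j) := rfl
      rw [h9]
      congr 1
      · funext k; rw [hFU']
      · congr 1
        funext k; rw [hFU']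
    have h10 : a • ((U : M4).transpose * G * (U : M4)) = (b * g) • mrow w row := by
      have h11 : a • ((U : M4).transpose * G * (U : M4)) =
          (U : M4).transpose * (a • G) * (U : M4) := by
        rw [Matrix.mul_smul, Matrix.smul_mul]
      rw [h11, hE.rel]
      have h12 : (U : M4).transpose * -(b • (F.transpose * P * F)) * (U : M4) =
          -(b • ((F * (U : M4)).transpose * P * (F * (U : M4)))) := by
        rw [Matrix.transpose_mul, Matrix.mul_neg, Matrix.neg_mul, Matrix.mul_smul, Matrix.smul_mul]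
        simp only [Matrix.mul_assoc]
      rw [h12, h8, smul_neg, neg_neg, smul_smul]
    have hg0 : g ≠ 0 := by
      rintro rfl
      rw [Nat.cast_zero, mul_zero, zero_smul] at h10
      have h11 : (U : M4).transpose * G * (U : M4) = 0 := by
        rcases smul_eq_zero.1 h10 with h | h
        · exact absurd h hE.a0.ne'
        · exact h
      have hUU : (U : M4) * ((U⁻¹ : M4ˣ) : M4) = 1 := by simp
      have hUT : (((U⁻¹ : M4ˣ) : M4).transpose) * (U : M4).transpose = 1 := by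
        rw [← Matrix.transpose_mul, hUU, Matrix.transpose_one]
      have h12 : G = 0 := by
        calc G = ((((U⁻¹ : M4ˣ) : M4).transpose) * (U : M4).transpose) * G *
              ((U : M4) * ((U⁻¹ : M4ˣ) : M4)) := by rw [hUU, hUT]; simp
          _ = (((U⁻¹ : M4ˣ) : M4).transpose) * ((U : M4).transpose * G * (U : M4)) *
              ((U⁻¹ : M4ˣ) : M4) := by simp only [Matrix.mul_assoc]
          _ = 0 := by rw [h11]; simp
      have h13 := (hE.root 0).pos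
      rw [h12] at h13
      simp [bz] at h13
    refine ⟨a, b * g, hE.a0, mul_pos hE.b0 (by exact_mod_cast Nat.pos_of_ne_zero hg0), h10⟩

theorem finn (hp2 : Pack2Stmt) (hp4 : Pack4Stmt) : FinStmt := by
  intro c D0 P F G a b nd e n0 n1 n2 n3 D cl ex tb tn cb cn ty s FR FF hE hN h
  obtain ⟨N, W, hFW, hPk, hND, hD, hNbd, hcl, -⟩ := hN
  unfold K.fin at h
  obtain ⟨hb, h⟩ := brec_ne h
  have hcl24 : D ∣ cl ^ 24 := Nat.dvd_of_mod_eq_zero (beq_true hb)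
  simp only [fc_eq] at h
  have hwU : Nat.mod (Nat.mod s 65536) 32 < 32 := Nat.mod_lt _ (by norm_num)
  have hwP : Nat.mod (Nat.div (Nat.mod s 65536) 32) 32 < 32 := Nat.mod_lt _ (by norm_num)
  obtain ⟨g, hg⟩ : ∃ g, g = Nat.mod (Nat.div s 65536) (Nat.pow 2 (Nat.div (Nat.mod s 65536) 1024)) :=
    ⟨_, rfl⟩
  have hg63 : g < 2 ^ 63 := by
    have h1 : g = (s / 65536) % 2 ^ (s % 65536 / 1024) := hg
    have h2 : g < 2 ^ (s % 65536 / 1024) := by rw [h1]; exact Nat.mod_lt _ (by positivity)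
    have h3 : s % 65536 < 65536 := Nat.mod_lt _ (by norm_num)
    have h4 : 2 ^ (s % 65536 / 1024) ≤ 2 ^ 63 := Nat.pow_le_pow_right (by norm_num) (by omega)
    omega
  simp only [← hg] at h
  obtain ⟨y0, a0, a1, a2, a3, s1, v0, z0, h, hk0, hv0, hz0, hl0, hr0⟩ :=
    rdv_ne hp4 hE.ctx.toCtxB hPk hwU hwP h
  obtain ⟨y1, b0, b1, b2, b3, s2, v1, z1, h, hk1, hv1, hz1, hl1, hr1⟩ :=
    rdv_ne hp4 hE.ctx.toCtxB hPk hwU hwP h
  obtain ⟨y2, d0, d1, d2, d3, s3, v2, z2, h, hk2, hv2, hz2, hl2, hr2⟩ :=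
    rdv_ne hp4 hE.ctx.toCtxB hPk hwU hwP h
  obtain ⟨y3, e0, e1, e2, e3, s4, v3, z3, h, hk3, hv3, hz3, hl3, hr3⟩ :=
    rdv_ne hp4 hE.ctx.toCtxB hPk hwU hwP h
  try simp only [fc_eq] at h
  obtain ⟨hb, h⟩ := brec_ne h
  have hQpos : 0 < c.Q := lt_of_lt_of_le (by norm_num) (Q_big' hE.ctx.toCtxB)
  have hdt := detQ_spec hQpos hl0 hl1 hl2 hl3 hr0 hr1 hr2 hr3
  have hdt' : K.detQ c.Q a0 a1 a2 a3 b0 b1 b2 b3 d0 d1 d2 d3 e0 e1 e2 e3 = D ∨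
      K.detQ c.Q a0 a1 a2 a3 b0 b1 b2 b3 d0 d1 d2 d3 e0 e1 e2 e3 + D = c.Q := by
    rcases brec_or hb with h1 | h1
    · exact Or.inl (beq_true h1)
    · exact Or.inr (beq_true h1)
  obtain ⟨U, -, hU⟩ := fin_core hp2 hE hFW hND hD hNbd hcl hcl24 hk0 hk1 hk2 hk3 hv0 hv1 hv2 hv3
    hz0 hz1 hz2 hz3 hdt hdt'
  cases ty with
  | zero =>
    left
    have h1 := okb_ne h
    obtain ⟨h2, h3⟩ := ands_true h1
    refine ⟨Nat.mod s4 4096, ?_, ?_⟩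
    · exact Nat.le_of_ble_eq_true h2
    · obtain ⟨-, -, -, a', b', ha', hb', hab⟩ := hU g 24 _ hg63 (by norm_num) h3
      exact ⟨U, a', b', ha', hb', hab⟩
  | succ ty =>
    cases ty with
    | zero =>
      right; left
      have h1 := okb_ne h
      obtain ⟨h2, h3⟩ := ands_true h1
      refine ⟨Nat.mod s4 4096, ?_, ?_⟩
      · exact Nat.le_of_ble_eq_true h2
      · obtain ⟨-, -, -, a', b', ha', hb', hab⟩ := hU g 24 _ hg63 (by norm_num) h3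
        exact ⟨U, a', b', ha', hb', hab⟩
    | succ ty =>
      right; right
      obtain ⟨hb, h⟩ := brec_ne h
      have hw : Nat.mod s4 32 < 32 := Nat.mod_lt _ (by norm_num)
      have h3 := hU g _ _ hg63 hw hb
      cases ty with
      | zero => exact ⟨y0, y1, y2, y3, _, _, _, U, h3, Or.inl h⟩
      | succ ty => exact ⟨y0, y1, y2, y3, _, _, _, U, h3, Or.inr h⟩

end Pool.Agent.Refl.H59
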