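import Pool.Agent.Helper59_Refl.Real

/-!
# GEOI: the outermost edge whose two ends are orthogonal to it
-/

namespace Pool.Agent.Refl.H59

open Matrix

/-! ### the main statement -/

theorem farF (hFar : FarStmt) {G : M4} {n : ℕ} {e : Fin n → Z4} {O : R4} (hL : Lat G)
    (hC : Cham G n e O) {i j k : Fin n} (v : IsV G e i j k) (hjk : nn G (e j) (e k) = 0)
    (hij : nn G (e i) (e j) * nn G (e i) (e k) = 0) (q : ℝ) (lN mN : ℕ) (h0 : 0 < lN + mN)
    (hq : 0 < q)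
    (hout : ∀ a b, a ≠ b → 0 < g2 G (e a) (e b) →
      Qf (gR G (e a) (e b)) (sR G O (e a)) (sR G O (e b)) ≤ q)
    (hl : (lN : ℝ) / SS * q ≤ sR G O (e i) ^ 2)
    (hm : (mN : ℝ) / SS * q ≤ (sR G O (e j) + gR G (e i) (e j) * sR G O (e i)) ^ 2 /
      (1 - gR G (e i) (e j) ^ 2)) : FarF G e i j k lN mN :=
  fun r hr v' => hFar G n e O hL hC i j k r hr.symm v v' hjk hij q lN mN h0 hq hout hl hm

theorem lamI_pos (N : ℕ) (h : N ≤ 3) : 0 < lamI N := by
  unfold lamI gU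
  have hS : SS = 1000000 := rfl
  rw [hS]
  have : Nat.sqrt (N * 1000000 * 1000000) < 1900000 := by
    rw [Nat.sqrt_lt']
    calc N * 1000000 * 1000000 ≤ 3 * 1000000 * 1000000 := by gcongr
      _ < 1900000 ^ 2 := by norm_num
  generalize Nat.sqrt (N * 1000000 * 1000000) = r at this ⊢
  omega

theorem muI_pos (N : ℕ) (h : 5 ≤ N) : 0 < muI N := by
  unfold muI gL
  have hS : SS = 1000000 := rfl
  rw [hS]
  have h1 : 2200000 ≤ Nat.sqrt (N * 1000000 * 1000000) := by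
    rw [Nat.le_sqrt]
    calc 2200000 * 2200000 ≤ 5 * 1000000 * 1000000 := by norm_num
      _ ≤ N * 1000000 * 1000000 := by gcongr
  generalize Nat.sqrt (N * 1000000 * 1000000) = r at h1 ⊢
  omega

attribute [local irreducible] SS

theorem nn_le_three {G : M4} {n : ℕ} {e : Fin n → Z4} {O : R4} (hL : Lat G) (hN : NNStmt)
    (hC : Cham G n e O) {i j : Fin n} (hij : i ≠ j) (h : 0 < g2 G (e i) (e j)) :
    nn G (e i) (e j) ≤ 3 := by
  have h1 := gR_lt_one hC h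
  rw [gR_eq hC hL hN hij] at h1
  have h2 := gN_sq (nn G (e i) (e j))
  have h3 := gN_nonneg (nn G (e i) (e j))
  have h4 : (nn G (e i) (e j) : ℝ) < 4 := by nlinarith
  have : nn G (e i) (e j) < 4 := by exact_mod_cast h4
  omega

/-! small real facts, with a small context -/

theorem rr1 (g : ℝ) (h0 : 0 ≤ g) (h1 : g < 1) : 0 < 1 - g ^ 2 := by nlinarith

theorem rr2 (g q s1 s3 : ℝ) (g0 : 0 ≤ g) (b1 : (1 - g) / 2 * q ≤ s1 ^ 2)
    (o : s1 ^ 2 + s3 ^ 2 ≤ q) : s3 ^ 2 ≤ (1 + g) / 2 * (1 + q) := by nlinarith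

theorem rr3 (N : ℕ) (h : 1 < gN N) : 5 ≤ N := by
  have a1 := gN_sq N
  have a2 : (4 : ℝ) < N := by nlinarith
  have : 4 < N := by exact_mod_cast a2
  omega

theorem rr4 (x g u S : ℝ) (hS : 0 < S) (h : x ≤ 2 + g) (hu : g * S ≤ u) :
    x * S ≤ 2 * S + u := by nlinarith

theorem rr5 (x q : ℝ) (hx : 0 ≤ x) : x * q ≤ x * (1 + q) := by nlinarith

theorem rr6 (q s1 s2 : ℝ) (h1 : 0 < s1) (h2 : 0 < s2) (h21 : s2 ≤ s1)
    (hq : q = s1 ^ 2 + s2 ^ 2) : q ≤ 2 * s1 ^ 2 := by rw [hq]; nlinarith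

theorem rr7 (q s1 s5 g : ℝ) (h1 : 0 < s1) (h5 : 0 < s5) (g0 : 0 ≤ g) (hd : 0 < 1 - g ^ 2)
    (hq : q ≤ 2 * s1 ^ 2) (h : s1 ^ 2 + s5 ^ 2 + 2 * g * s1 * s5 ≤ q * (1 - g ^ 2)) :
    g ^ 2 < 1 / 2 := by
  have a3 : s1 ^ 2 < 2 * s1 ^ 2 * (1 - g ^ 2) := by
    have : 0 < s5 ^ 2 := by positivity
    have : 0 ≤ 2 * g * s1 * s5 := by positivity
    nlinarith
  have : 0 < s1 ^ 2 := by positivity
  by_contra hcon
  push Not at hcon
  nlinarith

theorem rr8 (N : ℕ) (h : 5 ≤ N) : 1 < gN N := by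
  have a1 := gN_sq N
  have a2 : (5 : ℝ) ≤ N := by exact_mod_cast h
  have a3 := gN_nonneg N
  nlinarith

theorem rr9 (x y : ℝ) (hx : 0 < x) (hy : 0 < y) (h : x ^ 2 ≤ y ^ 2) : x ≤ y := by nlinarith

theorem rr10 (x q : ℝ) : x ^ 2 * q ≤ x ^ 2 * (1 + q) := by nlinarith [sq_nonneg x]

theorem geoI (hN : NNStmt) (hEnds : EndsStmt) (hFar : FarStmt) (hFE : FarEndStmt)
    (hVP : VertexPosStmt) : GeoIStmt := by
  intro G n e O hL hC i1 i2 i3 i4 ho h13 h14 h23 h24 hs21 hs43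
  have hS := SS_pos
  have v3 := ho.v3
  have v4 := ho.v4
  have d12 := v3.1
  have d23 := v3.2.1
  have d13 := v3.2.2.1
  have d24 := v4.2.1
  have d14 := v4.2.2.1
  obtain ⟨p12, p13, p23, -⟩ := hVP G n e O hL hC i1 i2 i3 v3
  obtain ⟨-, p14, p24, -⟩ := hVP G n e O hL hC i1 i2 i4 v4
  have G13 : gR G (e i1) (e i3) = 0 := by rw [gR_eq hC hL hN d13, h13, gN_zero]
  have G14 : gR G (e i1) (e i4) = 0 := by rw [gR_eq hC hL hN d14, h14, gN_zero]
  have G23 : gR G (e i2) (e i3) = 0 := by rw [gR_eq hC hL hN d23, h23, gN_zero]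
  have G24 : gR G (e i2) (e i4) = 0 := by rw [gR_eq hC hL hN d24, h24, gN_zero]
  have s1p := sR_pos hC i1
  have s2p := sR_pos hC i2
  have s3p := sR_pos hC i3
  have s4p := sR_pos hC i4
  have g0 := gR_nonneg hC d12
  have g1 := gR_lt_one hC p12
  have o13 := ho.out i1 i3 d13 p13
  have o14 := ho.out i1 i4 d14 p14
  have o23 := ho.out i2 i3 d23 p23
  have o24 := ho.out i2 i4 d24 p24
  rw [G13] at o13
  rw [G14] at o14
  rw [G23] at o23
  rw [G24] at o24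
  have hend := hEnds G n e O hL hC i1 i2 i3 i4 ho.ne v3 v4
  simp only [G13, G14, G23, G24] at hend
  have hgN12 := gR_eq hC hL hN d12
  have hgN34 := gR_eq hC hL hN ho.ne
  have hout := ho.out
  set g := gR G (e i1) (e i2) with hg
  set s1 := sR G O (e i1) with hs1
  set s2 := sR G O (e i2) with hs2
  set s3 := sR G O (e i3) with hs3
  set s4 := sR G O (e i4) with hs4
  have hdp : 0 < 1 - g ^ 2 := rr1 g g0 g1
  have hQ0 : ∀ x y : ℝ, Qf 0 x y = x ^ 2 + y ^ 2 := by intro x y; unfold Qf; ring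
  rw [hQ0] at o13 o14 o23 o24
  have q0 : 0 < Qf g s1 s2 := by unfold Qf; positivity
  set q := Qf g s1 s2 with hq
  have hq1 : 0 < 1 + q := by linarith
  have hsq := Real.sq_sqrt hq1.le
  have hsq0 : 0 < Real.sqrt (1 + q) := Real.sqrt_pos.mpr hq1
  have hY3 : Yf g 0 0 s1 s2 s3 = s3 / Real.sqrt (1 + q) := by unfold Yf; rw [← hq]; ring
  have hY4 : Yf g 0 0 s1 s2 s4 = s4 / Real.sqrt (1 + q) := by unfold Yf; rw [← hq]; ring
  have hw : wf g 0 0 = 1 := by unfold wf; ring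
  have hcf : cf g 0 0 0 0 = 0 := by unfold cf; ring
  rw [hY3, hY4, hw, hcf, sub_zero] at hend
  have b1 := qf_bound g s1 s2 g0 g1 s1p s2p hs21
  rw [← hq] at b1
  have Y3p : 0 < s3 / Real.sqrt (1 + q) := by positivity
  have Y4p : 0 < s4 / Real.sqrt (1 + q) := by positivity
  have Y43 : s4 / Real.sqrt (1 + q) ≤ s3 / Real.sqrt (1 + q) := by gcongr
  have B3 : (s3 / Real.sqrt (1 + q)) ^ 2 ≤ (1 + g) / 2 := by
    rw [div_pow, hsq, div_le_iff₀ hq1]
    exact rr2 g q s1 s3 g0 b1 o13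
  have B4 : (s4 / Real.sqrt (1 + q)) ^ 2 ≤ (1 + g) / 2 := by
    rw [div_pow, hsq, div_le_iff₀ hq1]
    exact rr2 g q s1 s4 g0 b1 o14
  obtain ⟨c1, c2⟩ := end_bounds _ _ ((1 + g) / 2) _ Y3p Y4p hend B3 B4
  have c3 := end_lower _ _ _ Y4p Y43 hend
  rw [hgN34] at c1 c2 c3
  set N34 := nn G (e i3) (e i4) with hN34
  set N12 := nn G (e i1) (e i2) with hN12
  have hN12le : N12 ≤ 3 := nn_le_three hL hN hC d12 p12
  -- `5 ≤ N34`
  have n5 : 5 ≤ N34 := rr3 N34 c1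
  have b34 : N34 ≤ bI N12 := by
    unfold bI
    apply le_of_gN
    have hU := le_gU N12
    have c2' : gN N34 ≤ 2 + gN N12 := by rw [hgN12] at c2; linarith
    have := rr4 _ _ _ _ hS c2' hU
    push_cast
    exact this
  -- the number `mu`
  have hmu : ((muI N34 : ℕ) : ℝ) / (SS : ℕ) * q ≤ s3 ^ 2 := by
    have a1 := muI_le N34 c1.le
    have a2 : (gN N34 - 1) / 2 * (1 + q) ≤ s3 ^ 2 := by
      have := c3
      rw [div_pow, hsq, le_div_iff₀ hq1] at this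
      exact this
    have a3 : 0 ≤ (gN N34 - 1) / 2 := by linarith
    calc ((muI N34 : ℕ) : ℝ) / (SS : ℕ) * q ≤ (gN N34 - 1) / 2 * q := by gcongr
      _ ≤ (gN N34 - 1) / 2 * (1 + q) := rr5 _ _ a3
      _ ≤ _ := a2
  have hlam : ((lamI N12 : ℕ) : ℝ) / (SS : ℕ) * q ≤ s1 ^ 2 := by
    have a1 := lamI_le N12
    rw [max_eq_left (by rw [← hgN12]; linarith), ← hgN12] at a1
    calc _ ≤ (1 - g) / 2 * q := by gcongr
      _ ≤ _ := b1
  have h32 : nn G (e i3) (e i2) = 0 := by rw [nn_symm hL.symm, h23]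
  have h42 : nn G (e i4) (e i2) = 0 := by rw [nn_symm hL.symm, h24]
  have h31 : nn G (e i3) (e i1) = 0 := by rw [nn_symm hL.symm, h13]
  have h41 : nn G (e i4) (e i1) = 0 := by rw [nn_symm hL.symm, h14]
  -- the vertex `i5`
  obtain ⟨i5, ne5, v5⟩ := hFE G n e O hL hC i1 i3 i2 (sw23 v3)
  obtain ⟨-, p15, p35, -⟩ := hVP G n e O hL hC i1 i3 i5 v5
  have d15 := v5.2.2.1
  have d35 := v5.2.1
  have o15 := hout i1 i5 d15 p15
  have s5p := sR_pos hC i5
  set s5 := sR G O (e i5) with hs5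
  -- case `N12 = 0`
  have hz12 : N12 = 0 → g = 0 ∧ q = s1 ^ 2 + s2 ^ 2 := by
    intro h
    have : g = 0 := by rw [hgN12, h, gN_zero]
    refine ⟨this, ?_⟩
    rw [hq, this, hQ0]
  have b15 : N12 = 0 → nn G (e i1) (e i5) ≤ 1 := by
    intro h
    obtain ⟨-, hq2⟩ := hz12 h
    have g5 := gR_lt_one hC p15
    have g50 := gR_nonneg hC d15
    have hgN15 := gR_eq hC hL hN d15
    set g' := gR G (e i1) (e i5) with hg'
    have hd' : 0 < 1 - g' ^ 2 := rr1 g' g50 g5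
    have a1 : s1 ^ 2 + s5 ^ 2 + 2 * g' * s1 * s5 ≤ q * (1 - g' ^ 2) := by
      have := o15
      unfold Qf at this
      rwa [div_le_iff₀ hd'] at this
    have a2 : q ≤ 2 * s1 ^ 2 := rr6 q s1 s2 s1p s2p hs21 hq2
    have a4 : g' ^ 2 < 1 / 2 := rr7 q s1 s5 g' s1p s5p g50 hd' a2 a1
    rw [hgN15, gN_sq] at a4
    have : (nn G (e i1) (e i5) : ℝ) < 2 := by linarith
    have : nn G (e i1) (e i5) < 2 := by exact_mod_cast this
    omega
  -- the bound `l2I`
  have hl2 : ((l2I N12 (nn G (e i1) (e i5)) N34 (nn G (e i2) (e i5)) (nn G (e i3) (e i5)) : ℕ) : ℝ) /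
      (SS : ℕ) * q ≤ s2 ^ 2 := by
    unfold l2I
    split_ifs with h0 h1
    · obtain ⟨hgz, hq2⟩ := hz12 h0
      have hmu2 : ((muI N34 : ℕ) : ℝ) / (SS : ℕ) * q ≤ s2 ^ 2 := by
        have : s3 ^ 2 ≤ s2 ^ 2 := by linarith
        linarith
      by_cases h25 : 5 ≤ nn G (e i2) (e i5)
      · have d25 : i2 ≠ i5 := by
          intro h; exact ne5 h.symm
        have hgN25 := gR_eq hC hL hN d25
        have hgN35 := gR_eq hC hL hN d35
        have hgN15 := gR_eq hC hL hN d15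
        have G15 : gR G (e i1) (e i5) = 0 := by rw [hgN15, h1, gN_zero]
        have G32 : gR G (e i3) (e i2) = 0 := by rw [gR_symm hL.symm]; exact G23
        have hτ : 1 < gN (nn G (e i2) (e i5)) := rr8 _ h25
        have hend5 := hEnds G n e O hL hC i1 i3 i2 i5 ne5.symm (sw23 v3) v5
        simp only [G13, G15, G32, ← hg, hgz, ← hs1, ← hs2, ← hs3, ← hs5] at hend5
        have w1 : wf 0 0 0 = 1 := by unfold wf; ring
        have w2 : wf 0 0 (gR G (e i3) (e i5)) = 1 - gR G (e i3) (e i5) ^ 2 := by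
          unfold wf; ring
        have w3 : cf 0 0 0 0 (gR G (e i3) (e i5)) = 0 := by unfold cf; ring
        have y1 : Yf 0 0 0 s1 s3 s2 = s2 / Real.sqrt (1 + (s1 ^ 2 + s3 ^ 2)) := by
          unfold Yf; rw [hQ0]; ring
        have y2 : Yf 0 0 (gR G (e i3) (e i5)) s1 s3 s5 =
            (s5 + s3 * gR G (e i3) (e i5)) / Real.sqrt (1 + (s1 ^ 2 + s3 ^ 2)) := by
          unfold Yf; rw [hQ0]; ring
        rw [w1, w2, w3, y1, y2, sub_zero] at hend5
        have h52 : s5 ≤ s2 := by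
          rw [G15, hQ0] at o15
          exact rr9 s5 s2 s5p s2p (by linarith)
        have hc := lC_real s1 s2 s3 s5 (gR G (e i3) (e i5)) (gR G (e i2) (e i5))
          (gR_nonneg hC d35) s1p s2p s3p s5p h52 hend5.le (by rw [hgN25]; exact hτ)
        rw [hgN25, hgN35] at hc
        apply lC_le N34 _ _ (s2 ^ 2 / (1 + s1 ^ 2)) h25 hc hτ q _ q0.le _ hmu2
        have : 0 < 1 + s1 ^ 2 := by positivity
        have hz : s2 ^ 2 / (1 + s1 ^ 2) / (1 + s2 ^ 2 / (1 + s1 ^ 2)) * q =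
            s2 ^ 2 * q / (1 + q) := by
          rw [hq2]
          field_simp
          ring
        rw [hz, div_le_iff₀ hq1]
        exact rr10 s2 q
      · unfold lC
        rw [if_pos (by omega)]
        exact hmu2
    · obtain ⟨hgz, hq2⟩ := hz12 h0
      have : s3 ^ 2 ≤ s2 ^ 2 := by linarith
      linarith
    · simp only [Nat.cast_zero, zero_div, zero_mul]; positivity
  have hmuJ : ∀ x y : ℝ, (x + 0 * y) ^ 2 / (1 - (0 : ℝ) ^ 2) = x ^ 2 := by intro x y; ring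
  refine ⟨i5, ⟨ho.ne, ne5, v3, v4, v5, h13, h14, h23, h24, n5, b34, b15, ?_, ?_, ?_, ?_⟩⟩
  · apply farF hFar hL hC (sw23 v3) h32 (by rw [h13, zero_mul]) q _ _
      (Nat.add_pos_left (lamI_pos N12 hN12le) _) q0 hout hlam
    rw [G13, hmuJ]
    exact hmu
  · apply farF hFar hL hC (sw23 v4) h42 (by rw [h14, zero_mul]) q _ _
      (Nat.add_pos_left (lamI_pos N12 hN12le) _) q0 hout hlam
    rw [G14, hmuJ]
    simp only [Nat.cast_zero, zero_div, zero_mul]
    positivity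
  · apply farF hFar hL hC (sw23 (sw12 v3)) h31 (by rw [h23, zero_mul]) q _ _
      (Nat.add_pos_right _ (muI_pos N34 n5)) q0 hout hl2
    rw [G23, hmuJ]
    exact hmu
  · intro h0
    have hpos : 0 < l2I N12 (nn G (e i1) (e i5)) N34 (nn G (e i2) (e i5))
        (nn G (e i3) (e i5)) := by
      have hmup := muI_pos N34 n5
      unfold l2I
      rw [if_pos h0]
      split_ifs
      · unfold lC
        split_ifs
        · exact hmup
        · exact lt_of_lt_of_le hmup (le_max_right _ _)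
      · exact hmup
    apply farF hFar hL hC (sw23 (sw12 v4)) h41 (by rw [h24, zero_mul]) q _ _
      (Nat.add_pos_left hpos _) q0 hout hl2
    rw [G24, hmuJ]
    simp only [Nat.cast_zero, zero_div, zero_mul]
    positivity

end Pool.Agent.Refl.H59
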