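import Pool.Agent.Helper59_Refl.Fin
import Pool.Agent.Helper84_Refl.Base
import Pool.Agent.Helper23_Refl.KTup

/-!
REFL, part C2, module ISO: isotropic configurations.
-/

namespace Pool.Agent.Refl.H59

open Matrix

theorem notb_true {b : Bool} (h : K.notb b = true) : b = false := by
  cases b
  · rfl
  · exact absurd (show false = true from h) (by decide)

theorem sqE_ne {n : ℕ} {f : ℕ → ℕ} (h : K.sqE n f ≠ 0) : ∃ r, r * r = n ∧ f r ≠ 0 := by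
  unfold K.sqE at h
  simp only [fc_eq] at h
  obtain ⟨hb, h⟩ := brec_ne h
  exact ⟨_, beq_true hb, h⟩

theorem sg_eq (t x : ℕ) : K.sg t x = (x : ℤ) - t := by
  unfold K.sg
  exact Int.subNatNat_eq_coe

theorem ibeq_true {a b : ℤ} (h : Int.beq' a b = true) : a = b := by
  cases a <;> cases b
  · simp [Int.beq'] at h; simp [h]
  · simp [Int.beq'] at h
  · simp [Int.beq'] at h
  · simp [Int.beq'] at h; simp [h]

theorem isoK_ne {N01 N02 N12 N03 N13 N23 s : ℕ} (h : K.isoK N01 N02 N12 N03 N13 N23 s ≠ 0) :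
    ∃ (n0 n1 n2 n3 t01 t02 t12 t03 t13 t23 : ℕ) (X0 X1 X2 X3 : ℤ),
      (1 ≤ n0 ∧ 1 ≤ n1 ∧ 1 ≤ n2 ∧ 1 ≤ n3) ∧ t01 * t01 = N01 * (n0 * n1) ∧
      t02 * t02 = N02 * (n0 * n2) ∧ t12 * t12 = N12 * (n1 * n2) ∧ t03 * t03 = N03 * (n0 * n3) ∧
      t13 * t13 = N13 * (n1 * n3) ∧ t23 * t23 = N23 * (n2 * n3) ∧
      ¬ (X0 = 0 ∧ X1 = 0 ∧ X2 = 0 ∧ X3 = 0) ∧
      (n0 : ℤ) * X0 ^ 2 + n1 * X1 ^ 2 + n2 * X2 ^ 2 + n3 * X3 ^ 2 =
        t01 * X0 * X1 + t02 * X0 * X2 + t12 * X1 * X2 + t03 * X0 * X3 + t13 * X1 * X3 +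
          t23 * X2 * X3 := by
  unfold K.isoK at h
  simp only [fc_eq] at h
  obtain ⟨n0, n1, n2, n3, s1, -, -, -, -, h⟩ := rd4_ne h
  obtain ⟨x0, x1, x2, x3, s2, -, -, -, -, h⟩ := rd4_ne h
  obtain ⟨t, ht⟩ : ∃ t, t = Nat.div (Nat.pow 2 (Nat.mod s1 64)) 2 := ⟨_, rfl⟩
  simp only [← ht] at h
  obtain ⟨t01, h01, h⟩ := sqE_ne h
  obtain ⟨t02, h02, h⟩ := sqE_ne h
  obtain ⟨t12, h12, h⟩ := sqE_ne h
  obtain ⟨t03, h03, h⟩ := sqE_ne h
  obtain ⟨t13, h13, h⟩ := sqE_ne h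
  obtain ⟨t23, h23, h⟩ := sqE_ne h
  have h1 := okb_ne h
  obtain ⟨h2, h3⟩ := ands_true h1
  obtain ⟨h4, h5⟩ := ands_true h3
  obtain ⟨h6, h7⟩ := ands_true h2
  obtain ⟨h8, h9⟩ := ands_true h6
  obtain ⟨h10, h11⟩ := ands_true h7
  have hn := notb_true h4
  have he := ibeq_true h5
  refine ⟨n0, n1, n2, n3, t01, t02, t12, t03, t13, t23, K.sg t x0, K.sg t x1, K.sg t x2,
    K.sg t x3, ⟨Nat.le_of_ble_eq_true h8, Nat.le_of_ble_eq_true h9, Nat.le_of_ble_eq_true h10,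
    Nat.le_of_ble_eq_true h11⟩, h01, h02, h12, h03, h13, h23, ?_, ?_⟩
  · rintro ⟨a0, a1, a2, a3⟩
    rw [sg_eq] at a0 a1 a2 a3
    have b0 : x0 = t := by omega
    have b1 : x1 = t := by omega
    have b2 : x2 = t := by omega
    have b3 : x3 = t := by omega
    rw [b0, b1, b2, b3, Nat.beq_refl] at hn
    exact absurd (show true = false from hn) (by decide)
  · have he' : (n0 : ℤ) * K.sg t x0 * K.sg t x0 + n1 * K.sg t x1 * K.sg t x1 +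
        (n2 * K.sg t x2 * K.sg t x2 + n3 * K.sg t x3 * K.sg t x3) =
        (t01 * K.sg t x1 + t02 * K.sg t x2 + t03 * K.sg t x3) * K.sg t x0 +
          (t12 * K.sg t x2 + t13 * K.sg t x3) * K.sg t x1 + t23 * K.sg t x2 * K.sg t x3 := he
    linear_combination he'

/-- the next weight -/
theorem rstep {κ ri : ℚ} {Ki Kj c : ℤ} {ni nj N t : ℕ} (hri : 0 < ri) (hKi : 0 < Ki)
    (hKj : 0 < Kj) (hni : 1 ≤ ni) (hnj : 1 ≤ nj) (hN : 1 ≤ N) (h : ri ^ 2 * Ki = κ * ni)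
    (hc : (N : ℤ) * (Ki * Kj) = 4 * c ^ 2) (ht : t * t = N * (ni * nj)) :
    ∃ rj : ℚ, 0 < rj ∧ rj ^ 2 * Kj = κ * nj := by
  have hc0 : c ≠ 0 := by
    rintro rfl
    have h1 : 0 < (N : ℤ) * (Ki * Kj) := by positivity
    rw [hc] at h1
    norm_num at h1
  have ht0 : 0 < t := by
    rcases Nat.eq_zero_or_pos t with h1 | h1
    · rw [h1] at ht
      have h2 : 0 < N * (ni * nj) := by positivity
      omega
    · exact h1
  have hKi' : (0 : ℚ) < Ki := by exact_mod_cast hKi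
  have hKj' : (0 : ℚ) < Kj := by exact_mod_cast hKj
  have hni' : (0 : ℚ) < ni := by exact_mod_cast hni
  have ht' : (0 : ℚ) < t := by exact_mod_cast ht0
  have hca : (0 : ℚ) < |(c : ℚ)| := abs_pos.2 (by exact_mod_cast hc0)
  have hcq : (N : ℚ) * (Ki * Kj) = 4 * |(c : ℚ)| ^ 2 := by
    rw [sq_abs]; exact_mod_cast hc
  have htq : (t : ℚ) * t = N * (ni * nj) := by exact_mod_cast ht
  refine ⟨ri * t * Ki / (2 * |(c : ℚ)| * ni), by positivity, ?_⟩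
  rw [div_pow, div_mul_eq_mul_div, div_eq_iff (by positivity)]
  linear_combination (t : ℚ) ^ 2 * Ki * Kj * h + κ * ni * Ki * Kj * htq +
    κ * nj * (ni : ℚ) ^ 2 * hcq

theorem rpair {κ ri rj : ℚ} {Ki Kj c : ℤ} {ni nj N t : ℕ} (hκ : 0 < κ) (hri : 0 < ri)
    (hrj : 0 < rj) (hKi : 0 < Ki) (hKj : 0 < Kj) (hi : ri ^ 2 * Ki = κ * ni)
    (hj : rj ^ 2 * Kj = κ * nj) (hc : (N : ℤ) * (Ki * Kj) = 4 * c ^ 2) (hc0 : c ≤ 0)
    (ht : t * t = N * (ni * nj)) : 2 * (c : ℚ) * ri * rj = -(κ * t) := by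
  have hKi' : (0 : ℚ) < Ki := by exact_mod_cast hKi
  have hKj' : (0 : ℚ) < Kj := by exact_mod_cast hKj
  have hcq : (N : ℚ) * (Ki * Kj) = 4 * (c : ℚ) ^ 2 := by exact_mod_cast hc
  have htq : (t : ℚ) * t = N * (ni * nj) := by exact_mod_cast ht
  have hcn : (c : ℚ) ≤ 0 := by exact_mod_cast hc0
  have h1 : (-(2 * (c : ℚ) * ri * rj)) ^ 2 = (κ * t) ^ 2 := by
    have h2 : (Ki : ℚ) * Kj * (-(2 * (c : ℚ) * ri * rj)) ^ 2 = Ki * Kj * (κ * t) ^ 2 := by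
      linear_combination 4 * (c : ℚ) ^ 2 * (rj ^ 2 * Kj) * hi + 4 * (c : ℚ) ^ 2 * κ * ni * hj -
        κ ^ 2 * ni * nj * hcq - Ki * Kj * κ ^ 2 * htq
    exact mul_left_cancel₀ (by positivity) h2
  have h3 : 0 ≤ -(2 * (c : ℚ) * ri * rj) := by
    have h4 : 0 ≤ ri * rj := by positivity
    have h5 : 2 * (c : ℚ) * ri * rj = 2 * (c * (ri * rj)) := by ring
    have h6 := mul_nonpos_of_nonpos_of_nonneg hcn h4
    rw [h5]
    linarith
  have h7 : 0 ≤ κ * t := by positivity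
  have h8 : -(2 * (c : ℚ) * ri * rj) = κ * t := by
    have := abs_eq_abs.2 (sq_eq_sq_iff_eq_or_eq_neg.1 h1)
    rwa [abs_of_nonneg h3, abs_of_nonneg h7] at this
  linarith

/-- four independent vectors -/
theorem indep {a b c d : Z4} (h : d4 a b c d ≠ 0) {z0 z1 z2 z3 : ℤ}
    (hz : z0 • a + z1 • b + z2 • c + z3 • d = 0) : z0 = 0 ∧ z1 = 0 ∧ z2 = 0 ∧ z3 = 0 := by
  have h1 : Matrix.vecMul ![z0, z1, z2, z3] (Matrix.of ![a, b, c, d]) = 0 := by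
    funext j
    have h2 := congrFun hz j
    simp only [Pi.add_apply, Pi.smul_apply, smul_eq_mul, Pi.zero_apply] at h2
    simp only [Matrix.vecMul, dotProduct, Fin.sum_univ_four, Pi.zero_apply]
    exact h2
  have h2 := Matrix.eq_zero_of_vecMul_eq_zero h h1
  exact ⟨congrFun h2 0, congrFun h2 1, congrFun h2 2, congrFun h2 3⟩

/-- the form of a combination -/
theorem bz_comb {G : M4} (hG : G.transpose = G) (a b c d : Z4) (z0 z1 z2 z3 : ℤ) :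
    bz G (z0 • a + z1 • b + z2 • c + z3 • d) (z0 • a + z1 • b + z2 • c + z3 • d) =
      z0 ^ 2 * bz G a a + z1 ^ 2 * bz G b b + z2 ^ 2 * bz G c c + z3 ^ 2 * bz G d d +
        2 * (z0 * z1 * bz G a b + z0 * z2 * bz G a c + z1 * z2 * bz G b c + z0 * z3 * bz G a d +
          z1 * z3 * bz G b d + z2 * z3 * bz G c d) := by
  simp only [bz_add_left, bz_add_right, bz_smul_left, bz_smul_right]
  rw [bz_comm hG b a, bz_comm hG c a, bz_comm hG d a, bz_comm hG c b, bz_comm hG d b,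
    bz_comm hG d c]
  ring

/-- no isotropic vector in the span of four independent vectors -/
theorem anis_comb {G : M4} (hG : Lat G) {a b c d : Z4} (h : d4 a b c d ≠ 0) {y0 y1 y2 y3 : ℚ}
    (hy : y0 ^ 2 * (bz G a a : ℚ) + y1 ^ 2 * (bz G b b : ℚ) + y2 ^ 2 * (bz G c c : ℚ) +
      y3 ^ 2 * (bz G d d : ℚ) + 2 * (y0 * y1 * (bz G a b : ℚ) + y0 * y2 * (bz G a c : ℚ) +
        y1 * y2 * (bz G b c : ℚ) + y0 * y3 * (bz G a d : ℚ) + y1 * y3 * (bz G b d : ℚ) +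
          y2 * y3 * (bz G c d : ℚ)) = 0) : y0 = 0 ∧ y1 = 0 ∧ y2 = 0 ∧ y3 = 0 := by
  have e0 := Rat.mul_den_eq_num y0
  have e1 := Rat.mul_den_eq_num y1
  have e2 := Rat.mul_den_eq_num y2
  have e3 := Rat.mul_den_eq_num y3
  obtain ⟨z0, hz0⟩ : ∃ z : ℤ, z = y0.num * y1.den * y2.den * y3.den := ⟨_, rfl⟩
  obtain ⟨z1, hz1⟩ : ∃ z : ℤ, z = y1.num * y0.den * y2.den * y3.den := ⟨_, rfl⟩
  obtain ⟨z2, hz2⟩ : ∃ z : ℤ, z = y2.num * y0.den * y1.den * y3.den := ⟨_, rfl⟩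
  obtain ⟨z3, hz3⟩ : ∃ z : ℤ, z = y3.num * y0.den * y1.den * y2.den := ⟨_, rfl⟩
  obtain ⟨D, hD⟩ : ∃ D : ℚ, D = y0.den * y1.den * y2.den * y3.den := ⟨_, rfl⟩
  have hD0 : D ≠ 0 := by
    rw [hD]
    have h0 : (y0.den : ℚ) ≠ 0 := by exact_mod_cast y0.den_nz
    have h1 : (y1.den : ℚ) ≠ 0 := by exact_mod_cast y1.den_nz
    have h2 : (y2.den : ℚ) ≠ 0 := by exact_mod_cast y2.den_nz
    have h3 : (y3.den : ℚ) ≠ 0 := by exact_mod_cast y3.den_nz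
    positivity
  have w0 : (z0 : ℚ) = D * y0 := by
    rw [hz0, hD]; push_cast; rw [← e0]; ring
  have w1 : (z1 : ℚ) = D * y1 := by
    rw [hz1, hD]; push_cast; rw [← e1]; ring
  have w2 : (z2 : ℚ) = D * y2 := by
    rw [hz2, hD]; push_cast; rw [← e2]; ring
  have w3 : (z3 : ℚ) = D * y3 := by
    rw [hz3, hD]; push_cast; rw [← e3]; ring
  have hb : bz G (z0 • a + z1 • b + z2 • c + z3 • d) (z0 • a + z1 • b + z2 • c + z3 • d) = 0 := by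
    rw [bz_comb hG.symm]
    have hq : ((z0 ^ 2 * bz G a a + z1 ^ 2 * bz G b b + z2 ^ 2 * bz G c c + z3 ^ 2 * bz G d d +
        2 * (z0 * z1 * bz G a b + z0 * z2 * bz G a c + z1 * z2 * bz G b c + z0 * z3 * bz G a d +
          z1 * z3 * bz G b d + z2 * z3 * bz G c d) : ℤ) : ℚ) = 0 := by
      push_cast
      rw [w0, w1, w2, w3]
      linear_combination D ^ 2 * hy
    exact_mod_cast hq
  have hz := indep h (hG.anis _ hb)
  obtain ⟨v0, v1, v2, v3⟩ := hz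
  rw [v0] at w0
  rw [v1] at w1
  rw [v2] at w2
  rw [v3] at w3
  refine ⟨?_, ?_, ?_, ?_⟩
  · rcases mul_eq_zero.1 (w0.symm.trans Int.cast_zero) with h1 | h1
    · exact absurd h1 hD0
    · exact h1
  · rcases mul_eq_zero.1 (w1.symm.trans Int.cast_zero) with h1 | h1
    · exact absurd h1 hD0
    · exact h1
  · rcases mul_eq_zero.1 (w2.symm.trans Int.cast_zero) with h1 | h1
    · exact absurd h1 hD0
    · exact h1
  · rcases mul_eq_zero.1 (w3.symm.trans Int.cast_zero) with h1 | h1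
    · exact absurd h1 hD0
    · exact h1

theorem sel_ge {q a b c : ℕ} (h : 1 ≤ K.sel q a b c 0) : 1 ≤ a ∨ 1 ≤ b ∨ 1 ≤ c := by
  unfold K.sel at h
  rcases q with _ | _ | _ | q
  · exact Or.inl h
  · exact Or.inr (Or.inl h)
  · exact Or.inr (Or.inr h)
  · exact absurd (show 1 ≤ 0 from h) (by norm_num)

theorem iso (hNN : NNStmt) : IsoStmt := by
  intro G e q2 q3 s hG hr hneg hd h01 h2 h3
  by_contra hne
  obtain ⟨n0, n1, n2, n3, t01, t02, t12, t03, t13, t23, X0, X1, X2, X3, ⟨m0, m1, m2, m3⟩, s01,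
    s02, s12, s03, s13, s23, hX, hQ⟩ := isoK_ne hne
  have k0 := (hr 0).pos
  have k1 := (hr 1).pos
  have k2 := (hr 2).pos
  have k3 := (hr 3).pos
  have c01 := (hNN G (e 0) (e 1) hG (hr 0) (hr 1)).1
  have c02 := (hNN G (e 0) (e 2) hG (hr 0) (hr 2)).1
  have c12 := (hNN G (e 1) (e 2) hG (hr 1) (hr 2)).1
  have c03 := (hNN G (e 0) (e 3) hG (hr 0) (hr 3)).1
  have c13 := (hNN G (e 1) (e 3) hG (hr 1) (hr 3)).1
  have c23 := (hNN G (e 2) (e 3) hG (hr 2) (hr 3)).1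
  have b01 := hneg 0 1 (by decide)
  have b02 := hneg 0 2 (by decide)
  have b12 := hneg 1 2 (by decide)
  have b03 := hneg 0 3 (by decide)
  have b13 := hneg 1 3 (by decide)
  have b23 := hneg 2 3 (by decide)
  have hs2 := sel_ge h2
  have hs3 := sel_ge h3
  clear h2 h3 hr hneg hne
  generalize nn G (e 0) (e 1) = N01 at *
  generalize nn G (e 0) (e 2) = N02 at *
  generalize nn G (e 1) (e 2) = N12 at *
  generalize nn G (e 0) (e 3) = N03 at *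
  generalize nn G (e 1) (e 3) = N13 at *
  generalize nn G (e 2) (e 3) = N23 at *
  -- weights
  obtain ⟨κ, hκ⟩ : ∃ κ : ℚ, κ = (bz G (e 0) (e 0) : ℚ) * n0 := ⟨_, rfl⟩
  have hn0 : (0 : ℚ) < n0 := by exact_mod_cast m0
  have hk0 : (0 : ℚ) < (bz G (e 0) (e 0) : ℚ) := by exact_mod_cast k0
  have hκ0 : 0 < κ := by rw [hκ]; positivity
  have hr0 : (n0 : ℚ) ^ 2 * (bz G (e 0) (e 0) : ℚ) = κ * n0 := by rw [hκ]; ring
  obtain ⟨r1, p1, hr1⟩ := rstep hn0 k0 k1 m0 m1 h01 hr0 c01 s01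
  obtain ⟨r2, p2, hr2⟩ : ∃ r2 : ℚ, 0 < r2 ∧ r2 ^ 2 * (bz G (e 2) (e 2) : ℚ) = κ * n2 := by
    rcases hs2 with h | h | h
    · exact rstep hn0 k0 k2 m0 m2 h hr0 c02 s02
    · exact rstep p1 k1 k2 m1 m2 h hr1 c12 s12
    · exact absurd h (by norm_num)
  obtain ⟨r3, p3, hr3⟩ : ∃ r3 : ℚ, 0 < r3 ∧ r3 ^ 2 * (bz G (e 3) (e 3) : ℚ) = κ * n3 := by
    rcases hs3 with h | h | h
    · exact rstep hn0 k0 k3 m0 m3 h hr0 c03 s03
    · exact rstep p1 k1 k3 m1 m3 h hr1 c13 s13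
    · exact rstep p2 k2 k3 m2 m3 h hr2 c23 s23
  have e01 := rpair hκ0 hn0 p1 k0 k1 hr0 hr1 c01 b01 s01
  have e02 := rpair hκ0 hn0 p2 k0 k2 hr0 hr2 c02 b02 s02
  have e12 := rpair hκ0 p1 p2 k1 k2 hr1 hr2 c12 b12 s12
  have e03 := rpair hκ0 hn0 p3 k0 k3 hr0 hr3 c03 b03 s03
  have e13 := rpair hκ0 p1 p3 k1 k3 hr1 hr3 c13 b13 s13
  have e23 := rpair hκ0 p2 p3 k2 k3 hr2 hr3 c23 b23 s23
  have hQ' : (n0 : ℚ) * X0 ^ 2 + n1 * X1 ^ 2 + n2 * X2 ^ 2 + n3 * X3 ^ 2 =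
        t01 * X0 * X1 + t02 * X0 * X2 + t12 * X1 * X2 + t03 * X0 * X3 + t13 * X1 * X3 +
          t23 * X2 * X3 := by exact_mod_cast hQ
  have hfin := anis_comb hG hd (y0 := X0 * n0) (y1 := X1 * r1) (y2 := X2 * r2) (y3 := X3 * r3)
    (by linear_combination (X0 : ℚ) ^ 2 * hr0 + (X1 : ℚ) ^ 2 * hr1 + (X2 : ℚ) ^ 2 * hr2 +
      (X3 : ℚ) ^ 2 * hr3 + X0 * X1 * e01 + X0 * X2 * e02 + X1 * X2 * e12 + X0 * X3 * e03 +
      X1 * X3 * e13 + X2 * X3 * e23 + κ * hQ')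
  obtain ⟨f0, f1, f2, f3⟩ := hfin
  apply hX
  refine ⟨?_, ?_, ?_, ?_⟩
  · rcases mul_eq_zero.1 f0 with h | h
    · exact_mod_cast h
    · exact absurd h hn0.ne'
  · rcases mul_eq_zero.1 f1 with h | h
    · exact_mod_cast h
    · exact absurd h p1.ne'
  · rcases mul_eq_zero.1 f2 with h | h
    · exact_mod_cast h
    · exact absurd h p2.ne'
  · rcases mul_eq_zero.1 f3 with h | h
    · exact_mod_cast h
    · exact absurd h p3.ne'

end Pool.Agent.Refl.H59
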