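import Pool.Agent.Helper23_Refl.StmtB

/-!
# Common facts about the numbers `gR`, `sR`, `nn` of a compact chamber
-/

namespace Pool.Agent.Refl.H59

open Matrix

theorem bz_symm {G : M4} (hG : G.transpose = G) (x y : Z4) : bz G x y = bz G y x := by
  have h : ∀ i j, G i j = G j i := by
    intro i j
    have := congrFun (congrFun hG j) i
    simpa [Matrix.transpose_apply] using this
  unfold bz
  rw [Finset.sum_comm]
  refine Finset.sum_congr rfl fun j _ => Finset.sum_congr rfl fun i _ => ?_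
  rw [h i j]; ring

theorem gR_symm {G : M4} (hG : G.transpose = G) (x y : Z4) : gR G x y = gR G y x := by
  unfold gR
  rw [bz_symm hG x y, mul_comm (Real.sqrt (bz G x x : ℝ))]

theorem nn_symm {G : M4} (hG : G.transpose = G) (x y : Z4) : nn G x y = nn G y x := by
  unfold nn
  rw [bz_symm hG x y, mul_comm]

theorem g2_symm {G : M4} (hG : G.transpose = G) (x y : Z4) : g2 G x y = g2 G y x := by
  unfold g2
  rw [bz_symm hG x y, mul_comm]

/-! permutations of the facets through a vertex -/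

theorem sw12 {G : M4} {n : ℕ} {e : Fin n → Z4} {i j k : Fin n} (h : IsV G e i j k) :
    IsV G e j i k := by
  obtain ⟨h1, h2, h3, V, hV, h4, h5, h6, h7⟩ := h
  exact ⟨h1.symm, h3, h2, V, hV, h4, h6, h5, h7⟩

theorem sw23 {G : M4} {n : ℕ} {e : Fin n → Z4} {i j k : Fin n} (h : IsV G e i j k) :
    IsV G e i k j := by
  obtain ⟨h1, h2, h3, V, hV, h4, h5, h6, h7⟩ := h
  exact ⟨h3, h2.symm, h1, V, hV, h4, h5, h7, h6⟩

section
variable {G : M4} {n : ℕ} {e : Fin n → Z4} {O : R4}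

theorem Kpos (hC : Cham G n e O) (i : Fin n) : (0 : ℝ) < bz G (e i) (e i) := by
  exact_mod_cast (hC.root i).pos

theorem gR_nonneg (hC : Cham G n e O) {i j : Fin n} (h : i ≠ j) : 0 ≤ gR G (e i) (e j) := by
  unfold gR
  apply div_nonneg
  · have : (bz G (e i) (e j) : ℝ) ≤ 0 := by exact_mod_cast hC.obt i j h
    linarith
  · positivity

theorem sR_pos (hC : Cham G n e O) (i : Fin n) : 0 < sR G O (e i) := by
  unfold sR
  apply div_pos
  · have := hC.neg i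
    linarith
  · apply mul_pos (Real.sqrt_pos.mpr (Kpos hC i))
    apply Real.sqrt_pos.mpr
    have := hC.Oneg
    linarith

theorem gR_sq (hC : Cham G n e O) (i j : Fin n) :
    gR G (e i) (e j) ^ 2 * ((bz G (e i) (e i) : ℝ) * bz G (e j) (e j)) =
      (bz G (e i) (e j) : ℝ) ^ 2 := by
  unfold gR
  have h1 := Kpos hC i
  have h2 := Kpos hC j
  rw [div_pow, mul_pow, Real.sq_sqrt h1.le, Real.sq_sqrt h2.le]
  field_simp

theorem gR_lt_one (hC : Cham G n e O) {i j : Fin n} (h : 0 < g2 G (e i) (e j)) :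
    gR G (e i) (e j) < 1 := by
  have h1 := Kpos hC i
  have h2 := Kpos hC j
  have h3 := gR_sq hC i j
  have h4 : (bz G (e i) (e j) : ℝ) ^ 2 < (bz G (e i) (e i) : ℝ) * bz G (e j) (e j) := by
    unfold g2 at h
    have : (bz G (e i) (e j)) ^ 2 < (bz G (e i) (e i)) * bz G (e j) (e j) := by linarith
    exact_mod_cast this
  have h5 : gR G (e i) (e j) ^ 2 < 1 := by
    by_contra hcon
    push Not at hcon
    have : (bz G (e i) (e i) : ℝ) * bz G (e j) (e j) ≤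
        gR G (e i) (e j) ^ 2 * ((bz G (e i) (e i) : ℝ) * bz G (e j) (e j)) := by
      have := mul_pos h1 h2
      nlinarith
    linarith
  nlinarith [sq_nonneg (gR G (e i) (e j) - 1)]

theorem gR_eq (hC : Cham G n e O) (hL : Lat G) (hN : NNStmt) {i j : Fin n} (h : i ≠ j) :
    gR G (e i) (e j) = gN (nn G (e i) (e j)) :=
  (hN G (e i) (e j) hL (hC.root i) (hC.root j)).2.2.1 (hC.obt i j h)

theorem ne_neg (hC : Cham G n e O) (i j : Fin n) : e i ≠ - e j := by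
  intro h
  have h1 := hC.neg i
  have h2 := hC.neg j
  rw [h] at h1
  have : br G O (up (-e j)) = - br G O (up (e j)) := by
    unfold br up
    simp [Finset.sum_neg_distrib]
  linarith

theorem nn_ne_four (hC : Cham G n e O) (hL : Lat G) (hN : NNStmt) {i j : Fin n} (h : i ≠ j) :
    nn G (e i) (e j) ≠ 4 :=
  (hN G (e i) (e j) hL (hC.root i) (hC.root j)).2.1 (fun h' => h (hC.inj h')) (ne_neg hC i j)

end

/-! ### rounding -/

theorem gN_zero : gN 0 = 0 := by simp [gN]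

theorem gN_nonneg (N : ℕ) : 0 ≤ gN N := by unfold gN; positivity

theorem gN_sq (N : ℕ) : gN N ^ 2 = N / 4 := by
  unfold gN
  rw [div_pow, Real.sq_sqrt (Nat.cast_nonneg N)]; norm_num

theorem SS_pos : (0 : ℝ) < (SS : ℕ) := by unfold SS; norm_num

theorem gN_mul (N : ℕ) : gN N * (SS : ℕ) = Real.sqrt ((N * SS * SS : ℕ) : ℝ) / 2 := by
  unfold gN
  have : ((N * SS * SS : ℕ) : ℝ) = N * ((SS : ℕ) : ℝ) ^ 2 := by push_cast; ring
  rw [this, Real.sqrt_mul (Nat.cast_nonneg N), Real.sqrt_sq SS_pos.le]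
  ring

theorem gL_le (N : ℕ) : ((gL N : ℕ) : ℝ) ≤ gN N * (SS : ℕ) := by
  rw [gN_mul]
  unfold gL
  have h1 : ((Nat.sqrt (N * SS * SS) / 2 : ℕ) : ℝ) ≤ (Nat.sqrt (N * SS * SS) : ℝ) / 2 :=
    Nat.cast_div_le
  have h2 : (Nat.sqrt (N * SS * SS) : ℝ) ≤ Real.sqrt ((N * SS * SS : ℕ) : ℝ) :=
    Real.nat_sqrt_le_real_sqrt
  linarith

theorem le_gU (N : ℕ) : gN N * (SS : ℕ) ≤ ((gU N : ℕ) : ℝ) := by
  rw [gN_mul]
  unfold gU
  have h2 : Real.sqrt ((N * SS * SS : ℕ) : ℝ) ≤ (Nat.sqrt (N * SS * SS) : ℝ) + 1 :=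
    Real.real_sqrt_le_nat_sqrt_succ
  have h3 : Nat.sqrt (N * SS * SS) + 1 ≤ 2 * (Nat.sqrt (N * SS * SS) / 2 + 1) := by omega
  have h4 : ((Nat.sqrt (N * SS * SS) : ℝ) + 1) ≤ 2 * ((Nat.sqrt (N * SS * SS) / 2 + 1 : ℕ) : ℝ) := by
    exact_mod_cast h3
  linarith

/-- from a real bound to the natural bound -/
theorem le_of_gN (n a : ℕ) (h : gN n * (SS : ℕ) ≤ a) : n ≤ 4 * a * a / (SS * SS) := by
  have hS := SS_pos
  rw [Nat.le_div_iff_mul_le (by unfold SS; norm_num)]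
  have h1 : gN n ^ 2 * ((SS : ℕ) : ℝ) ^ 2 ≤ (a : ℝ) ^ 2 := by
    have h0 := gN_nonneg n
    have : 0 ≤ gN n * (SS : ℕ) := by positivity
    calc gN n ^ 2 * ((SS : ℕ) : ℝ) ^ 2 = (gN n * (SS : ℕ)) ^ 2 := by ring
      _ ≤ (a : ℝ) ^ 2 := by gcongr
  rw [gN_sq] at h1
  have h2 : (n : ℝ) * (((SS : ℕ) : ℝ) * ((SS : ℕ) : ℝ)) ≤ 4 * a * a := by nlinarith
  exact_mod_cast h2

end Pool.Agent.Refl.H59
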