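import Pool.Agent.Helper59_Refl.Common

/-!
# Real inequalities and roundings for GEOI and GEOII
-/

namespace Pool.Agent.Refl.H59

open Matrix

attribute [local irreducible] SS

/-! ### real inequalities -/

theorem qf_bound (g s1 s2 : ℝ) (hg : 0 ≤ g) (hg1 : g < 1) (h1 : 0 < s1) (h2 : 0 < s2)
    (h21 : s2 ≤ s1) : (1 - g) / 2 * Qf g s1 s2 ≤ s1 ^ 2 := by
  have hd : 0 < 1 - g ^ 2 := by nlinarith
  unfold Qf
  rw [← sub_nonneg]
  have : s1 ^ 2 - (1 - g) / 2 * ((s1 ^ 2 + s2 ^ 2 + 2 * g * s1 * s2) / (1 - g ^ 2)) =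
      (2 * (1 + g) * s1 ^ 2 - (s1 ^ 2 + s2 ^ 2 + 2 * g * s1 * s2)) / (2 * (1 + g)) := by
    have h3 : (1 + g) ≠ 0 := by positivity
    have h4 : (1 - g) ≠ 0 := by linarith
    have h5 : 1 - g ^ 2 = (1 - g) * (1 + g) := by ring
    rw [h5]
    field_simp
  rw [this]
  apply div_nonneg _ (by positivity)
  nlinarith [mul_nonneg hg (mul_nonneg h1.le (sub_nonneg.mpr h21)), mul_pos h1 h2]

theorem end_bounds (Y3 Y4 B g : ℝ) (h3 : 0 < Y3) (h4 : 0 < Y4)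
    (hg : g = Y3 * Y4 + Real.sqrt (1 + Y3 ^ 2) * Real.sqrt (1 + Y4 ^ 2))
    (hB3 : Y3 ^ 2 ≤ B) (hB4 : Y4 ^ 2 ≤ B) : 1 < g ∧ g ≤ 1 + 2 * B := by
  have e3 : 1 ≤ Real.sqrt (1 + Y3 ^ 2) := by
    rw [show (1 : ℝ) = Real.sqrt 1 by simp]
    apply Real.sqrt_le_sqrt
    simp; positivity
  have e4 : 1 ≤ Real.sqrt (1 + Y4 ^ 2) := by
    rw [show (1 : ℝ) = Real.sqrt 1 by simp]
    apply Real.sqrt_le_sqrt
    simp; positivity
  have q3 := Real.sq_sqrt (show (0 : ℝ) ≤ 1 + Y3 ^ 2 by positivity)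
  have q4 := Real.sq_sqrt (show (0 : ℝ) ≤ 1 + Y4 ^ 2 by positivity)
  constructor
  · rw [hg]; nlinarith [mul_pos h3 h4]
  · rw [hg]
    nlinarith [sq_nonneg (Y3 - Y4), sq_nonneg (Real.sqrt (1 + Y3 ^ 2) - Real.sqrt (1 + Y4 ^ 2))]

theorem end_lower (Y3 Y4 g : ℝ) (h4 : 0 < Y4) (h43 : Y4 ≤ Y3)
    (hg : g = Y3 * Y4 + Real.sqrt (1 + Y3 ^ 2) * Real.sqrt (1 + Y4 ^ 2)) :
    (g - 1) / 2 ≤ Y3 ^ 2 := by
  have h3 : 0 < Y3 := lt_of_lt_of_le h4 h43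
  have hh : Y4 ^ 2 ≤ Y3 ^ 2 := by nlinarith
  have := (end_bounds Y3 Y4 (Y3 ^ 2) g h3 h4 hg le_rfl hh).2
  linarith

theorem tau_bound (Z τ c : ℝ) (hZ : 0 ≤ Z) (hc : 0 ≤ c) (hτ : 0 < τ)
    (h : τ ≤ Z + Real.sqrt (Z * (Z + c))) : τ ^ 2 / (2 * τ + c) ≤ Z := by
  rw [div_le_iff₀ (by positivity)]
  by_cases h1 : τ ≤ Z
  · nlinarith
  · push Not at h1
    have h2 : τ - Z ≤ Real.sqrt (Z * (Z + c)) := by linarith
    have h3 : (τ - Z) ^ 2 ≤ Z * (Z + c) := by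
      calc (τ - Z) ^ 2 ≤ Real.sqrt (Z * (Z + c)) ^ 2 := by
            apply pow_le_pow_left₀ (by linarith) h2
        _ = Z * (Z + c) := Real.sq_sqrt (by positivity)
    nlinarith

/-- the case `g15 = 0`: lower bound for `s2²/(1+s1²)` -/
theorem lC_real (s1 s2 s3 s5 c g : ℝ) (hc0 : 0 ≤ c) (h1 : 0 < s1) (h2 : 0 < s2)
    (h3 : 0 < s3) (h5 : 0 < s5) (h52 : s5 ≤ s2)
    (hg : g ≤ (s2 / Real.sqrt (1 + (s1 ^ 2 + s3 ^ 2))) *
      ((s5 + s3 * c) / Real.sqrt (1 + (s1 ^ 2 + s3 ^ 2))) +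
      Real.sqrt (1 + (s2 / Real.sqrt (1 + (s1 ^ 2 + s3 ^ 2))) ^ 2) *
      Real.sqrt (1 - c ^ 2 + ((s5 + s3 * c) / Real.sqrt (1 + (s1 ^ 2 + s3 ^ 2))) ^ 2))
    (hg1 : 1 < g) : (g - 1) ^ 2 / (2 * (g - 1) + c ^ 2) ≤ s2 ^ 2 / (1 + s1 ^ 2) := by
  set D := 1 + (s1 ^ 2 + s3 ^ 2) with hD
  have hDpos : 0 < D := by positivity
  set Z := s2 ^ 2 / (1 + s1 ^ 2) with hZ
  have hZ0 : 0 ≤ Z := by positivity
  have hsD := Real.sq_sqrt hDpos.le
  have hsD0 : 0 < Real.sqrt D := Real.sqrt_pos.mpr hDpos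
  have y2 : (s2 / Real.sqrt D) ^ 2 ≤ Z := by
    rw [div_pow, hsD, hZ]
    apply div_le_div_of_nonneg_left (by positivity) (by positivity)
    rw [hD]; nlinarith [sq_nonneg s3]
  have y5 : ((s5 + s3 * c) / Real.sqrt D) ^ 2 ≤ Z + c ^ 2 := by
    rw [div_pow, hsD, div_le_iff₀ hDpos]
    have a1 : (s5 + s3 * c) ^ 2 ≤ (s2 + s3 * c) ^ 2 := by
      apply pow_le_pow_left₀ (by positivity)
      linarith
    have a2 : (s2 + s3 * c) ^ 2 ≤ (Z + c ^ 2) * D := by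
      have hz : Z * (1 + s1 ^ 2) = s2 ^ 2 := by rw [hZ]; field_simp
      have : (Z + c ^ 2) * D - (s2 + s3 * c) ^ 2 =
          Z * s3 ^ 2 + c ^ 2 * (1 + s1 ^ 2) - 2 * s2 * (s3 * c) := by
        rw [hD]; ring_nf; nlinarith [hz]
      have h6 : 0 ≤ Z * s3 ^ 2 + c ^ 2 * (1 + s1 ^ 2) - 2 * s2 * (s3 * c) := by
        have h7 : 0 < 1 + s1 ^ 2 := by positivity
        have h8 : (Z * s3 ^ 2 + c ^ 2 * (1 + s1 ^ 2) - 2 * s2 * (s3 * c)) * (1 + s1 ^ 2) =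
            (s2 * s3 - c * (1 + s1 ^ 2)) ^ 2 := by
          have : Z * s3 ^ 2 * (1 + s1 ^ 2) = s2 ^ 2 * s3 ^ 2 := by
            rw [mul_right_comm, hz]
          linear_combination this
        by_contra hcon
        push Not at hcon
        have := mul_neg_of_neg_of_pos hcon h7
        rw [h8] at this
        nlinarith [sq_nonneg (s2 * s3 - c * (1 + s1 ^ 2))]
      linarith
    linarith
  have y2p : 0 ≤ s2 / Real.sqrt D := by positivity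
  have y5p : 0 ≤ (s5 + s3 * c) / Real.sqrt D := by positivity
  have k1 : (s2 / Real.sqrt D) * ((s5 + s3 * c) / Real.sqrt D) ≤ Real.sqrt (Z * (Z + c ^ 2)) := by
    rw [Real.sqrt_mul hZ0]
    apply mul_le_mul _ _ y5p (Real.sqrt_nonneg _)
    · exact Real.le_sqrt_of_sq_le y2
    · exact Real.le_sqrt_of_sq_le y5
  have k2 : Real.sqrt (1 + (s2 / Real.sqrt D) ^ 2) *
      Real.sqrt (1 - c ^ 2 + ((s5 + s3 * c) / Real.sqrt D) ^ 2) ≤ 1 + Z := by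
    have l1 : Real.sqrt (1 + (s2 / Real.sqrt D) ^ 2) ≤ Real.sqrt (1 + Z) :=
      Real.sqrt_le_sqrt (by linarith)
    have l2 : Real.sqrt (1 - c ^ 2 + ((s5 + s3 * c) / Real.sqrt D) ^ 2) ≤ Real.sqrt (1 + Z) :=
      Real.sqrt_le_sqrt (by linarith)
    calc _ ≤ Real.sqrt (1 + Z) * Real.sqrt (1 + Z) :=
          mul_le_mul l1 l2 (Real.sqrt_nonneg _) (Real.sqrt_nonneg _)
      _ = 1 + Z := Real.mul_self_sqrt (by positivity)
  have := tau_bound Z (g - 1) (c ^ 2) hZ0 (by positivity) (by linarith) (by linarith)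
  exact this

/-! ### roundings -/

theorem lamI_le (N : ℕ) : ((lamI N : ℕ) : ℝ) / (SS : ℕ) ≤ max ((1 - gN N) / 2) 0 := by
  have hS := SS_pos
  have hU := le_gU N
  rw [div_le_iff₀ hS]
  unfold lamI
  have h1 : (((SS - gU N) / 2 : ℕ) : ℝ) ≤ ((SS - gU N : ℕ) : ℝ) / 2 := Nat.cast_div_le
  by_cases h : gU N ≤ SS
  · rw [Nat.cast_sub h] at h1
    have : (1 - gN N) / 2 * (SS : ℕ) ≤ max ((1 - gN N) / 2) 0 * (SS : ℕ) := by
      gcongr; exact le_max_left _ _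
    nlinarith
  · have : SS - gU N = 0 := by omega
    rw [this] at h1 ⊢
    have h2 : (0 : ℝ) ≤ max ((1 - gN N) / 2) 0 * (SS : ℕ) := by positivity
    simpa using h2

theorem muI_le (N : ℕ) (h : 1 ≤ gN N) : ((muI N : ℕ) : ℝ) / (SS : ℕ) ≤ (gN N - 1) / 2 := by
  have hS := SS_pos
  have hU := gL_le N
  rw [div_le_iff₀ hS]
  unfold muI
  have h1 : (((gL N - SS) / 2 : ℕ) : ℝ) ≤ ((gL N - SS : ℕ) : ℝ) / 2 := Nat.cast_div_le
  by_cases h : SS ≤ gL N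
  · rw [Nat.cast_sub h] at h1
    nlinarith
  · have : gL N - SS = 0 := by omega
    rw [this] at h1 ⊢
    simp only [Nat.zero_div, Nat.cast_zero]
    nlinarith

theorem lC_le (N34 N25 N35 : ℕ) (Z : ℝ) (h25 : 5 ≤ N25)
    (hZ : (gN N25 - 1) ^ 2 / (2 * (gN N25 - 1) + gN N35 ^ 2) ≤ Z) (hτ : 1 < gN N25)
    (q A : ℝ) (hq : 0 ≤ q) (hA : Z / (1 + Z) * q ≤ A)
    (hmu : ((muI N34 : ℕ) : ℝ) / (SS : ℕ) * q ≤ A) :
    ((lC N34 N25 N35 : ℕ) : ℝ) / (SS : ℕ) * q ≤ A := by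
  have hS := SS_pos
  unfold lC
  rw [if_neg (by omega)]
  simp only
  set t := gL N25 - SS with ht
  set Zn := t * t / (2 * t + N35 * SS / 4 + 1) with hZn
  rcases le_total (Zn * SS / (SS + Zn)) (muI N34) with h | h
  · rw [max_eq_right h]; exact hmu
  rw [max_eq_left h]
  refine le_trans ?_ hA
  apply mul_le_mul_of_nonneg_right _ hq
  -- `t/SS ≤ τ`
  have hτ1 : (t : ℝ) / (SS : ℕ) ≤ gN N25 - 1 := by
    rw [div_le_iff₀ hS]
    have hL := gL_le N25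
    by_cases h1 : SS ≤ gL N25
    · rw [ht, Nat.cast_sub h1]; nlinarith
    · have : t = 0 := by omega
      rw [this]; simp only [Nat.cast_zero]; nlinarith
  have hc0 : 0 ≤ gN N35 ^ 2 := by positivity
  -- `Zn/SS ≤ Z`
  have hz : (Zn : ℝ) / (SS : ℕ) ≤ Z := by
    by_cases h0 : t = 0
    · have : Zn = 0 := by rw [hZn, h0]; simp
      rw [this]
      have hp : 0 < gN N25 - 1 := by linarith
      have : 0 ≤ (gN N25 - 1) ^ 2 / (2 * (gN N25 - 1) + gN N35 ^ 2) := by positivity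
      simp only [Nat.cast_zero, zero_div]
      linarith
    · have htp : (0 : ℝ) < t := by exact_mod_cast Nat.pos_of_ne_zero h0
      set τ := gN N25 - 1 with hτd
      have hτp : 0 < τ := by linarith
      set c := gN N35 ^ 2 with hc
      have h1 : (Zn : ℝ) ≤ (t : ℝ) * t / (2 * t + N35 * (SS : ℕ) / 4) := by
        have a1 : ((t * t / (2 * t + N35 * SS / 4 + 1) : ℕ) : ℝ) ≤
            ((t * t : ℕ) : ℝ) / ((2 * t + N35 * SS / 4 + 1 : ℕ) : ℝ) := Nat.cast_div_le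
        have a2 : (N35 : ℝ) * (SS : ℕ) / 4 ≤ ((N35 * SS / 4 + 1 : ℕ) : ℝ) := by
          have : N35 * SS ≤ 4 * (N35 * SS / 4 + 1) := by omega
          have : ((N35 * SS : ℕ) : ℝ) ≤ 4 * ((N35 * SS / 4 + 1 : ℕ) : ℝ) := by exact_mod_cast this
          push_cast at this ⊢
          linarith
        refine le_trans a1 ?_
        push_cast at a2 ⊢
        apply div_le_div_of_nonneg_left (by positivity) (by positivity)
        linarith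
      have h2 : (t : ℝ) * t / (2 * t + N35 * (SS : ℕ) / 4) / (SS : ℕ) =
          ((t : ℝ) / (SS : ℕ)) ^ 2 / (2 * ((t : ℝ) / (SS : ℕ)) + c) := by
        rw [hc, gN_sq]
        field_simp
      have h3 : ((t : ℝ) / (SS : ℕ)) ^ 2 / (2 * ((t : ℝ) / (SS : ℕ)) + c) ≤
          τ ^ 2 / (2 * τ + c) := by
        set u := (t : ℝ) / (SS : ℕ) with hu
        have hup : 0 < u := by positivity
        rw [div_le_div_iff₀ (by positivity) (by positivity)]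
        nlinarith [mul_nonneg (mul_pos hup hτp).le (sub_nonneg.mpr hτ1),
          mul_nonneg (mul_nonneg hc0 (add_pos hup hτp).le) (sub_nonneg.mpr hτ1)]
      calc (Zn : ℝ) / (SS : ℕ) ≤ (t : ℝ) * t / (2 * t + N35 * (SS : ℕ) / 4) / (SS : ℕ) := by
            gcongr
        _ = _ := h2
        _ ≤ _ := h3
        _ ≤ Z := hZ
  -- conclusion
  have h1 : ((Zn * SS / (SS + Zn) : ℕ) : ℝ) ≤ ((Zn * SS : ℕ) : ℝ) / ((SS + Zn : ℕ) : ℝ) :=
    Nat.cast_div_le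
  have h2 : ((Zn * SS : ℕ) : ℝ) / ((SS + Zn : ℕ) : ℝ) / (SS : ℕ) =
      ((Zn : ℝ) / (SS : ℕ)) / (1 + (Zn : ℝ) / (SS : ℕ)) / (SS : ℕ) * (SS : ℕ) := by
    push_cast
    field_simp
  have h3 : ((Zn : ℝ) / (SS : ℕ)) / (1 + (Zn : ℝ) / (SS : ℕ)) ≤ Z / (1 + Z) := by
    have hz0 : (0 : ℝ) ≤ (Zn : ℝ) / (SS : ℕ) := by positivity
    rw [div_le_div_iff₀ (by positivity) (by linarith)]
    nlinarith
  calc ((Zn * SS / (SS + Zn) : ℕ) : ℝ) / (SS : ℕ)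
      ≤ ((Zn * SS : ℕ) : ℝ) / ((SS + Zn : ℕ) : ℝ) / (SS : ℕ) := by gcongr
    _ = ((Zn : ℝ) / (SS : ℕ)) / (1 + (Zn : ℝ) / (SS : ℕ)) := by
        rw [h2]; field_simp
    _ ≤ _ := h3

end Pool.Agent.Refl.H59
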